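import Pool.Agent.Lib.MP_ae5b4e_an_NB1D.Defs

/-!
# MP_ae5b4e_an, NB_1 Lemma (2.1): functions of one function
-/

noncomputable section

namespace Pool.Agent.MP_ae5b4e_an_NB1D

open Complex Set Filter Topology Metric

/-- a nonzero functional is part of a coordinate system -/
private theorem funOf_compl {A : ℂ × ℂ →L[ℂ] ℂ} (hA : A ≠ 0) :
    ∃ (B : ℂ × ℂ →L[ℂ] ℂ) (e : (ℂ × ℂ) ≃L[ℂ] (ℂ × ℂ)),
      (e : ℂ × ℂ →L[ℂ] ℂ × ℂ) = A.prod B := by
  have hlin : ∀ u w : ℂ, A (u, w) = u * A (1, 0) + w * A (0, 1) := by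
    intro u w
    have : ((u, w) : ℂ × ℂ) = u • ((1, 0) : ℂ × ℂ) + w • ((0, 1) : ℂ × ℂ) := by simp
    rw [this, map_add, map_smul, map_smul, smul_eq_mul, smul_eq_mul]
  have hB : ∃ B : ℂ × ℂ →L[ℂ] ℂ, Function.Injective (A.prod B).toLinearMap := by
    by_cases h1 : A (1, 0) = 0
    · have h2 : A (0, 1) ≠ 0 := by
        intro h2
        apply hA
        refine ContinuousLinearMap.ext fun x => ?_
        have h3 : A (x.1, x.2) = 0 := by rw [hlin, h1, h2, mul_zero, mul_zero, add_zero]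
        exact h3
      refine ⟨ContinuousLinearMap.fst ℂ ℂ ℂ, ?_⟩
      rw [← LinearMap.ker_eq_bot, LinearMap.ker_eq_bot']
      rintro ⟨u, w⟩ h
      have h' : ((A (u, w), u) : ℂ × ℂ) = 0 := h
      rw [Prod.mk_eq_zero] at h'
      have hu := h'.2
      have hw := h'.1
      rw [hlin, h1, mul_zero, zero_add, mul_eq_zero] at hw
      rw [hu, hw.resolve_right h2]
      rfl
    · refine ⟨ContinuousLinearMap.snd ℂ ℂ ℂ, ?_⟩
      rw [← LinearMap.ker_eq_bot, LinearMap.ker_eq_bot']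
      rintro ⟨u, w⟩ h
      have h' : ((A (u, w), w) : ℂ × ℂ) = 0 := h
      rw [Prod.mk_eq_zero] at h'
      have hw := h'.2
      have hu := h'.1
      rw [hlin, hw, zero_mul, add_zero, mul_eq_zero] at hu
      rw [hw, hu.resolve_right h1]
      rfl
  obtain ⟨B, hB⟩ := hB
  refine ⟨B, (LinearEquiv.ofInjectiveEndo (A.prod B).toLinearMap
    hB).toContinuousLinearEquiv, ?_⟩
  rfl

theorem fun_of {f y g : ℂ × ℂ → ℂ} {p : ℂ × ℂ} (hf : AnalyticAt ℂ f p) (hy : AnalyticAt ℂ y p)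
    (hd : fderiv ℂ y p ≠ 0) (hg : ∀ᶠ z in 𝓝 p, fderiv ℂ f z = g z • fderiv ℂ y z) :
    ∃ a : ℂ → ℂ, AnalyticAt ℂ a (y p) ∧ ∀ᶠ z in 𝓝 p, f z = a (y z) := by
  obtain ⟨B, e, he⟩ := funOf_compl hd
  set Φ : ℂ × ℂ → ℂ × ℂ := fun z => (y z, B z) with hΦ
  have hM0 : HasStrictFDerivAt Φ (e : ℂ × ℂ →L[ℂ] ℂ × ℂ) p := by
    rw [he]
    exact hy.hasStrictFDerivAt.prodMk B.hasStrictFDerivAt
  have hΦan : AnalyticAt ℂ Φ p := hy.prod (B.analyticAt p)
  set N : ℂ × ℂ → ℂ × ℂ := hM0.localInverse with hN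
  have hN1 : ∀ᶠ q in 𝓝 p, N (Φ q) = q := hM0.eventually_left_inverse
  have hN2 : ∀ᶠ q in 𝓝 (Φ p), Φ (N q) = q := hM0.eventually_right_inverse
  have hN3 : Tendsto N (𝓝 (Φ p)) (𝓝 p) := hM0.localInverse_tendsto
  have hN4 : AnalyticAt ℂ N (Φ p) := by
    have h1 := (hM0.toOpenPartialHomeomorph Φ).analyticAt_symm' (a := p) (i := e)
      hM0.mem_toOpenPartialHomeomorph_source (by
        rw [hM0.toOpenPartialHomeomorph_coe]; exact hΦan) (by
        rw [hM0.toOpenPartialHomeomorph_coe]; exact hM0.hasFDerivAt.fderiv)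
    rw [hM0.toOpenPartialHomeomorph_coe] at h1
    exact h1
  have hNp : N (Φ p) = p := hN1.self_of_nhds
  have hFan : AnalyticAt ℂ (fun q => f (N q)) (Φ p) :=
    AnalyticAt.fun_comp_of_eq hf hN4 hNp
  -- the second partial derivative of `f ∘ N` vanishes
  have hzero : ∀ᶠ q in 𝓝 (Φ p), fderiv ℂ (fun q => f (N q)) q (0, 1) = 0 := by
    have e1 := hN3.eventually hf.eventually_analyticAt
    have e2 := hN3.eventually hy.eventually_analyticAt
    filter_upwards [hN2.eventually_nhds, hN4.eventually_analyticAt, e1, e2,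
      hN3.eventually hg] with q h1 h2 h3 h4 h5
    have h6 : HasFDerivAt N (fderiv ℂ N q) q := h2.differentiableAt.hasFDerivAt
    have h7 : HasFDerivAt (fun q => f (N q)) ((fderiv ℂ f (N q)).comp (fderiv ℂ N q)) q :=
      HasFDerivAt.comp (g := f) (f := N) q h3.differentiableAt.hasFDerivAt h6
    have h8 : HasFDerivAt (fun q => y (N q)) ((fderiv ℂ y (N q)).comp (fderiv ℂ N q)) q :=
      HasFDerivAt.comp (g := y) (f := N) q h4.differentiableAt.hasFDerivAt h6
    have h9 : HasFDerivAt (fun q => y (N q)) (ContinuousLinearMap.fst ℂ ℂ ℂ) q := by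
      refine (hasFDerivAt_fst (𝕜 := ℂ) (E := ℂ) (F := ℂ) (p := q)).congr_of_eventuallyEq ?_
      filter_upwards [h1] with z hz
      exact congrArg Prod.fst hz
    have h10 := congrArg (fun L : ℂ × ℂ →L[ℂ] ℂ => L (0, 1)) (h8.unique h9)
    have h11 : fderiv ℂ y (N q) (fderiv ℂ N q (0, 1)) = 0 := h10
    rw [h7.fderiv]
    show fderiv ℂ f (N q) (fderiv ℂ N q (0, 1)) = 0
    rw [h5]
    show g (N q) • fderiv ℂ y (N q) (fderiv ℂ N q (0, 1)) = 0
    rw [h11, smul_zero]
  obtain ⟨r, hr, hball⟩ := Metric.eventually_nhds_iff_ball.1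
    (hzero.and hFan.eventually_analyticAt)
  have hconst : ∀ u v : ℂ, u ∈ ball (y p) r → v ∈ ball (B p) r →
      f (N (u, v)) = f (N (u, B p)) := by
    intro u v hu hv
    have hmem : ∀ v ∈ ball (B p) r, ((u, v) : ℂ × ℂ) ∈ ball (Φ p) r := by
      intro v hv
      rw [mem_ball, Prod.dist_eq]
      exact max_lt hu hv
    have hder : ∀ v ∈ ball (B p) r, HasDerivAt (fun v => f (N (u, v))) 0 v := by
      intro v hv
      obtain ⟨h1, h2⟩ := hball _ (hmem v hv)
      have h3 : HasDerivAt (fun v : ℂ => (u, v)) ((0:ℂ), (1:ℂ)) v :=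
        (hasDerivAt_const v u).prodMk (hasDerivAt_id v)
      have h4 := HasFDerivAt.comp_hasDerivAt (x := v) (f := fun v : ℂ => (u, v))
        (l := fun q => f (N q)) h2.differentiableAt.hasFDerivAt h3
      rw [h1] at h4
      exact h4
    exact isOpen_ball.is_const_of_deriv_eq_zero (f := fun v => f (N (u, v)))
      (convex_ball (B p) r).isPreconnected
      (fun v hv => (hder v hv).differentiableAt.differentiableWithinAt)
      (fun v hv => (hder v hv).deriv) hv (mem_ball_self hr)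
  refine ⟨fun u => f (N (u, B p)), ?_, ?_⟩
  · exact AnalyticAt.fun_comp (g := fun q => f (N q)) (f := fun u : ℂ => (u, B p)) hFan
      (analyticAt_id.prod analyticAt_const)
  · filter_upwards [hN1, hΦan.continuousAt.eventually_mem (ball_mem_nhds (Φ p) hr)] with z h1 h2
    have h3 : y z ∈ ball (y p) r := by
      rw [mem_ball, Prod.dist_eq] at h2
      exact lt_of_le_of_lt (le_max_left _ _) h2
    have h4 : B z ∈ ball (B p) r := by
      rw [mem_ball, Prod.dist_eq] at h2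
      exact lt_of_le_of_lt (le_max_right _ _) h2
    have h5 := hconst (y z) (B z) h3 h4
    show f z = f (N (y z, B p))
    rw [← h5]
    exact congrArg f h1.symm

end Pool.Agent.MP_ae5b4e_an_NB1D
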