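import Pool.Agent.Lib.MP_ae5b4e_an_NB1D.VanD

/-!
# MP_ae5b4e_an, NB_1 Lemma (2.1): approximate solutions of the radial equation
-/

noncomputable section

namespace Pool.Agent.MP_ae5b4e_an_NB1D

open Complex Set Filter Topology Metric
open Pool.Agent.MP_ae5b4e_an_NB1 (Van FRel ARel Jac)

private theorem seg_bound {W : ℂ × ℂ → ℂ} {q v : ℂ × ℂ} {B : ℝ}
    (hW : ∀ t ∈ Icc (0 : ℝ) 1, AnalyticAt ℂ W (q + t • v)) (hW0 : W q = 0)
    (hB : ∀ t ∈ Ioc (0 : ℝ) 1, ‖fderiv ℂ W (q + t • v) v‖ ≤ B) : ‖W (q + v)‖ ≤ B := by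
  have hline : ∀ t : ℝ, HasDerivAt (fun t : ℝ => q + t • v) v t := by
    intro t
    have h := ((hasDerivAt_id t).smul_const v).const_add q
    simpa using h
  have hder : ∀ t ∈ Icc (0 : ℝ) 1,
      HasDerivAt (fun t : ℝ => W (q + t • v)) (fderiv ℂ W (q + t • v) v) t := by
    intro t ht
    have h1 : HasFDerivAt W ((fderiv ℂ W (q + t • v)).restrictScalars ℝ) (q + t • v) :=
      (hW t ht).differentiableAt.hasFDerivAt.restrictScalars ℝ
    exact h1.comp_hasDerivAt t (hline t)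
  have h0 : ‖fderiv ℂ W (q + (0 : ℝ) • v) v‖ ≤ B := by
    have hc : ContinuousAt (fun t : ℝ => ‖fderiv ℂ W (q + t • v) v‖) 0 := by
      have h1 : ContinuousAt (fderiv ℂ W) (q + (0 : ℝ) • v) :=
        (hW 0 (by simp)).fderiv.continuousAt
      have h2 : ContinuousAt (fun t : ℝ => fderiv ℂ W (q + t • v)) 0 :=
        ContinuousAt.comp (f := fun t : ℝ => q + t • v) h1 (hline 0).continuousAt
      exact (h2.clm_apply continuousAt_const).norm
    have ht : Tendsto (fun t : ℝ => ‖fderiv ℂ W (q + t • v) v‖) (𝓝[>] 0)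
        (𝓝 ‖fderiv ℂ W (q + (0 : ℝ) • v) v‖) := hc.tendsto.mono_left nhdsWithin_le_nhds
    refine le_of_tendsto ht ?_
    filter_upwards [Ioc_mem_nhdsGT (zero_lt_one (α := ℝ))] with t ht
    exact hB t ht
  have hb : ∀ t ∈ Ico (0 : ℝ) 1, ‖fderiv ℂ W (q + t • v) v‖ ≤ B := by
    intro t ht
    rcases eq_or_lt_of_le ht.1 with h | h
    · rw [← h]; exact h0
    · exact hB t ⟨h, ht.2.le⟩
  have hmain := norm_image_sub_le_of_norm_deriv_le_segment'
    (f := fun t : ℝ => W (q + t • v)) (f' := fun t : ℝ => fderiv ℂ W (q + t • v) v)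
    (fun t ht => (hder t ht).hasDerivWithinAt) hb 1 (by simp)
  simpa [hW0] using hmain

theorem rad_cmp {ι : Type} [Fintype ι] {q : ℂ × ℂ} {N : ι → ι → ℂ × ℂ → ℂ} {y W : ι → ℂ × ℂ → ℂ}
    {n : ℕ} (hN : ∀ s s', AnalyticAt ℂ (N s s') q) (hy : ∀ s, AnalyticAt ℂ (y s) q)
    (hW : ∀ s, AnalyticAt ℂ (W s) q) (hW0 : ∀ s, W s q = 0)
    (hV : ∀ s, Van (fun p => fderiv ℂ (W s) p (p - q) -
      (∑ s', N s s' p * W s' p) * fderiv ℂ (y s) p (p - q)) q (n + 1)) (s : ι) :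
    Van (W s) q (n + 1) := by
  classical
  choose C0 hC0 using hV
  set C : ℝ := ∑ s, |C0 s| with hC
  have hCle : ∀ s, C0 s ≤ C := fun s => (le_abs_self _).trans
    (Finset.single_le_sum (f := fun s => |C0 s|) (fun _ _ => abs_nonneg _) (Finset.mem_univ s))
  have hCpos : 0 ≤ C := Finset.sum_nonneg fun _ _ => abs_nonneg _
  set A : ℝ := 1 + ∑ s, ∑ s', ‖N s s' q‖ + ∑ s, ‖fderiv ℂ (y s) q‖ with hA
  have hA1 : ∀ s s', ‖N s s' q‖ < A := by
    intro s s'
    have h1 : ‖N s s' q‖ ≤ ∑ s', ‖N s s' q‖ :=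
      Finset.single_le_sum (f := fun s' => ‖N s s' q‖) (fun _ _ => norm_nonneg _)
        (Finset.mem_univ s')
    have h2 : ∑ s', ‖N s s' q‖ ≤ ∑ s, ∑ s', ‖N s s' q‖ :=
      Finset.single_le_sum (f := fun s => ∑ s', ‖N s s' q‖)
        (fun _ _ => Finset.sum_nonneg fun _ _ => norm_nonneg _) (Finset.mem_univ s)
    have h3 : 0 ≤ ∑ s, ‖fderiv ℂ (y s) q‖ := Finset.sum_nonneg fun _ _ => norm_nonneg _
    rw [hA]; linarith
  have hA2 : ∀ s, ‖fderiv ℂ (y s) q‖ < A := by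
    intro s
    have h1 : ‖fderiv ℂ (y s) q‖ ≤ ∑ s, ‖fderiv ℂ (y s) q‖ :=
      Finset.single_le_sum (f := fun s => ‖fderiv ℂ (y s) q‖) (fun _ _ => norm_nonneg _)
        (Finset.mem_univ s)
    have h2 : 0 ≤ ∑ s, ∑ s', ‖N s s' q‖ :=
      Finset.sum_nonneg fun _ _ => Finset.sum_nonneg fun _ _ => norm_nonneg _
    rw [hA]; linarith
  have hApos : 0 ≤ A := (norm_nonneg _).trans (hA2 s).le
  have hev : ∀ᶠ p in 𝓝 q, (∀ s, AnalyticAt ℂ (W s) p) ∧ (∀ s s', ‖N s s' p‖ ≤ A) ∧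
      (∀ s, ‖fderiv ℂ (y s) p‖ ≤ A) ∧ (∀ s, ‖fderiv ℂ (W s) p (p - q) -
      (∑ s', N s s' p * W s' p) * fderiv ℂ (y s) p (p - q)‖ ≤ C0 s * dist p q ^ (n + 1)) := by
    refine Filter.Eventually.and ?_ (Filter.Eventually.and ?_ (Filter.Eventually.and ?_ ?_))
    · exact Filter.eventually_all.2 fun s => (hW s).eventually_analyticAt
    · refine Filter.eventually_all.2 fun s => Filter.eventually_all.2 fun s' => ?_
      have h := (hN s s').continuousAt.norm.tendsto.eventually_lt_const (hA1 s s')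
      exact h.mono fun p hp => hp.le
    · refine Filter.eventually_all.2 fun s => ?_
      have h := (hy s).fderiv.continuousAt.norm.tendsto.eventually_lt_const (hA2 s)
      exact h.mono fun p hp => hp.le
    · exact Filter.eventually_all.2 fun s => hC0 s
  obtain ⟨R, hR, hball⟩ := Metric.nhds_basis_closedBall.eventually_iff.1 hev
  set k : ℝ := (Fintype.card ι : ℝ) with hk
  have hk0 : 0 ≤ k := by rw [hk]; positivity
  set R1 : ℝ := min R (1 / (2 * (k * A ^ 2 + 1))) with hR1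
  have hD : 0 < 2 * (k * A ^ 2 + 1) := by positivity
  have hR1pos : 0 < R1 := lt_min hR (by positivity)
  refine ⟨2 * k * C, ?_⟩
  filter_upwards [Metric.closedBall_mem_nhds q hR1pos] with p hp
  -- the maximum on the closed ball of radius dist p q
  set ρ : ℝ := dist p q with hρ
  have hρR1 : ρ ≤ R1 := hp
  have hρ0 : 0 ≤ ρ := dist_nonneg
  have hρR : ρ ≤ R := hρR1.trans (min_le_left _ _)
  have hρD : k * A ^ 2 * ρ ≤ 1 / 2 := by
    have h1 : ρ ≤ 1 / (2 * (k * A ^ 2 + 1)) := hρR1.trans (min_le_right _ _)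
    have h2 : k * A ^ 2 * ρ ≤ k * A ^ 2 * (1 / (2 * (k * A ^ 2 + 1))) :=
      mul_le_mul_of_nonneg_left h1 (by positivity)
    refine h2.trans ?_
    rw [mul_one_div, div_le_div_iff₀ hD (by norm_num)]
    nlinarith
  have hcont : ContinuousOn (fun x => ∑ s, ‖W s x‖) (closedBall q ρ) := by
    refine continuousOn_finsetSum _ fun s _ => ?_
    intro x hx
    exact ((hball (closedBall_subset_closedBall hρR hx)).1 s).continuousAt.norm.continuousWithinAt
  obtain ⟨p0, hp0, hmax⟩ := (isCompact_closedBall q ρ).exists_isMaxOn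
    ⟨p, by rw [mem_closedBall]⟩ hcont
  set m : ℝ := ∑ s, ‖W s p0‖ with hm
  have hm0 : 0 ≤ m := Finset.sum_nonneg fun _ _ => norm_nonneg _
  have hmle : ∀ x ∈ closedBall q ρ, ∑ s, ‖W s x‖ ≤ m := fun x hx => hmax hx
  -- the estimate
  have hest : ∀ x ∈ closedBall q ρ, ∀ s, ‖W s x‖ ≤ A ^ 2 * m * ρ + C * ρ ^ (n + 1) := by
    intro x hx s
    have hv : ‖x - q‖ ≤ ρ := by
      rw [← dist_eq_norm]; exact hx
    have hmem : ∀ t ∈ Icc (0 : ℝ) 1, q + t • (x - q) ∈ closedBall q ρ := by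
      intro t ht
      rw [mem_closedBall, dist_eq_norm, add_sub_cancel_left, norm_smul, Real.norm_eq_abs,
        abs_of_nonneg ht.1]
      calc t * ‖x - q‖ ≤ 1 * ρ := mul_le_mul ht.2 hv (norm_nonneg _) (by norm_num)
        _ = ρ := one_mul _
    have hres := seg_bound (W := W s) (q := q) (v := x - q)
      (B := A ^ 2 * m * ρ + C * ρ ^ (n + 1))
      (fun t ht => (hball (closedBall_subset_closedBall hρR (hmem t ht))).1 s) (hW0 s) ?_
    · simpa using hres
    intro t ht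
    have htm := hmem t ⟨ht.1.le, ht.2⟩
    obtain ⟨-, hN', hy', hE'⟩ := hball (closedBall_subset_closedBall hρR htm)
    set z : ℂ × ℂ := q + t • (x - q) with hz
    have hzq : z - q = t • (x - q) := by rw [hz, add_sub_cancel_left]
    have hzq' : z - q = (t : ℂ) • (x - q) := by
      rw [hzq]; ext <;> simp
    have hdz : dist z q = t * ‖x - q‖ := by
      rw [dist_eq_norm, hzq, norm_smul, Real.norm_eq_abs, abs_of_pos ht.1]
    have hE1 := hE' s
    have htC : (t : ℂ) ≠ 0 := by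
      exact_mod_cast ht.1.ne'
    have hfac : fderiv ℂ (W s) z (z - q) -
        (∑ s', N s s' z * W s' z) * fderiv ℂ (y s) z (z - q) =
        (t : ℂ) * (fderiv ℂ (W s) z (x - q) -
        (∑ s', N s s' z * W s' z) * fderiv ℂ (y s) z (x - q)) := by
      rw [hzq', map_smul, map_smul, smul_eq_mul, smul_eq_mul]
      ring
    rw [hfac, norm_mul, Complex.norm_real, Real.norm_eq_abs, abs_of_pos ht.1, hdz] at hE1
    have hE2 : ‖fderiv ℂ (W s) z (x - q) -
        (∑ s', N s s' z * W s' z) * fderiv ℂ (y s) z (x - q)‖ ≤ C * ρ ^ (n + 1) := by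
      have h1 : t * ‖fderiv ℂ (W s) z (x - q) -
          (∑ s', N s s' z * W s' z) * fderiv ℂ (y s) z (x - q)‖ ≤
          t * (C * ρ ^ (n + 1)) := by
        refine hE1.trans ?_
        have h2 : C0 s * (t * ‖x - q‖) ^ (n + 1) ≤ C * (t * ‖x - q‖) ^ (n + 1) :=
          mul_le_mul_of_nonneg_right (hCle s) (by have := ht.1.le; positivity)
        refine h2.trans ?_
        rw [mul_pow, pow_succ t n]
        have h3 : t ^ n ≤ 1 := pow_le_one₀ ht.1.le ht.2
        have h4 : ‖x - q‖ ^ (n + 1) ≤ ρ ^ (n + 1) := pow_le_pow_left₀ (norm_nonneg _) hv _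
        have h5 : t ^ n * t * ‖x - q‖ ^ (n + 1) ≤ t * ρ ^ (n + 1) := by
          calc t ^ n * t * ‖x - q‖ ^ (n + 1) ≤ 1 * t * ρ ^ (n + 1) := by
                have := ht.1.le
                gcongr
            _ = t * ρ ^ (n + 1) := by ring
        calc C * (t ^ n * t * ‖x - q‖ ^ (n + 1)) ≤ C * (t * ρ ^ (n + 1)) :=
              mul_le_mul_of_nonneg_left h5 hCpos
          _ = t * (C * ρ ^ (n + 1)) := by ring
      exact le_of_mul_le_mul_left h1 ht.1
    have hsum : ‖∑ s', N s s' z * W s' z‖ ≤ A * m := by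
      calc ‖∑ s', N s s' z * W s' z‖ ≤ ∑ s', ‖N s s' z * W s' z‖ := norm_sum_le _ _
        _ ≤ ∑ s', A * ‖W s' z‖ := by
            refine Finset.sum_le_sum fun s' _ => ?_
            rw [norm_mul]
            exact mul_le_mul_of_nonneg_right (hN' s s') (norm_nonneg _)
        _ = A * ∑ s', ‖W s' z‖ := by rw [Finset.mul_sum]
        _ ≤ A * m := mul_le_mul_of_nonneg_left (hmle z htm) hApos
    have hyb : ‖fderiv ℂ (y s) z (x - q)‖ ≤ A * ρ := by
      calc ‖fderiv ℂ (y s) z (x - q)‖ ≤ ‖fderiv ℂ (y s) z‖ * ‖x - q‖ :=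
            ContinuousLinearMap.le_opNorm _ _
        _ ≤ A * ρ := mul_le_mul (hy' s) hv (norm_nonneg _) hApos
    have hprod : ‖(∑ s', N s s' z * W s' z) * fderiv ℂ (y s) z (x - q)‖ ≤ A ^ 2 * m * ρ := by
      rw [norm_mul]
      calc ‖∑ s', N s s' z * W s' z‖ * ‖fderiv ℂ (y s) z (x - q)‖ ≤ (A * m) * (A * ρ) :=
            mul_le_mul hsum hyb (norm_nonneg _) (by positivity)
        _ = A ^ 2 * m * ρ := by ring
    calc ‖fderiv ℂ (W s) z (x - q)‖
        = ‖(∑ s', N s s' z * W s' z) * fderiv ℂ (y s) z (x - q) +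
          (fderiv ℂ (W s) z (x - q) -
            (∑ s', N s s' z * W s' z) * fderiv ℂ (y s) z (x - q))‖ := by
          congr 1; ring
      _ ≤ _ + _ := norm_add_le _ _
      _ ≤ A ^ 2 * m * ρ + C * ρ ^ (n + 1) := add_le_add hprod hE2
  have hm1 : m ≤ k * (A ^ 2 * m * ρ + C * ρ ^ (n + 1)) := by
    calc m ≤ ∑ _s : ι, (A ^ 2 * m * ρ + C * ρ ^ (n + 1)) :=
          Finset.sum_le_sum fun s _ => hest p0 hp0 s
      _ = k * (A ^ 2 * m * ρ + C * ρ ^ (n + 1)) := by
          rw [Finset.sum_const, Finset.card_univ, nsmul_eq_mul]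
  have hm2 : m ≤ 2 * k * C * ρ ^ (n + 1) := by
    have h1 : k * (A ^ 2 * m * ρ + C * ρ ^ (n + 1)) =
        (k * A ^ 2 * ρ) * m + k * C * ρ ^ (n + 1) := by ring
    rw [h1] at hm1
    have h2 : (k * A ^ 2 * ρ) * m ≤ 1 / 2 * m := mul_le_mul_of_nonneg_right hρD hm0
    nlinarith
  calc ‖W s p‖ ≤ ∑ s, ‖W s p‖ := Finset.single_le_sum (f := fun s => ‖W s p‖)
        (fun _ _ => norm_nonneg _) (Finset.mem_univ s)
    _ ≤ m := hmle p (by rw [mem_closedBall])
    _ ≤ 2 * k * C * ρ ^ (n + 1) := hm2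

end Pool.Agent.MP_ae5b4e_an_NB1D
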