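import Pool.Agent.Lib.MP_ae5b4e_an_NB1D.Defs

/-!
# MP_ae5b4e_an, NB_1 Lemma (2.1): orders of vanishing
-/

noncomputable section

namespace Pool.Agent.MP_ae5b4e_an_NB1D

open Complex Set Filter Topology Metric
open Pool.Agent.MP_ae5b4e_an_NB1 (Van FRel ARel Jac)

theorem van_congr {f g : ℂ × ℂ → ℂ} {q : ℂ × ℂ} {n : ℕ} (h : f =ᶠ[𝓝 q] g) (hf : Van f q n) :
    Van g q n := by
  obtain ⟨C, hC⟩ := hf
  refine ⟨C, ?_⟩
  filter_upwards [h, hC] with y hy h1
  rw [← hy]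
  exact h1

theorem van_add {f g : ℂ × ℂ → ℂ} {q : ℂ × ℂ} {n : ℕ} (hf : Van f q n) (hg : Van g q n) :
    Van (fun p => f p + g p) q n := by
  obtain ⟨C, hC⟩ := hf
  obtain ⟨D, hD⟩ := hg
  refine ⟨C + D, ?_⟩
  filter_upwards [hC, hD] with y h1 h2
  calc ‖f y + g y‖ ≤ ‖f y‖ + ‖g y‖ := norm_add_le _ _
    _ ≤ C * dist y q ^ n + D * dist y q ^ n := add_le_add h1 h2
    _ = (C + D) * dist y q ^ n := by ring

theorem van_sub {f g : ℂ × ℂ → ℂ} {q : ℂ × ℂ} {n : ℕ} (hf : Van f q n) (hg : Van g q n) :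
    Van (fun p => f p - g p) q n := by
  obtain ⟨C, hC⟩ := hf
  obtain ⟨D, hD⟩ := hg
  refine ⟨C + D, ?_⟩
  filter_upwards [hC, hD] with y h1 h2
  calc ‖f y - g y‖ ≤ ‖f y‖ + ‖g y‖ := norm_sub_le _ _
    _ ≤ C * dist y q ^ n + D * dist y q ^ n := add_le_add h1 h2
    _ = (C + D) * dist y q ^ n := by ring

theorem van_sum {ι : Type*} {s : Finset ι} {f : ι → ℂ × ℂ → ℂ} {q : ℂ × ℂ} {n : ℕ}
    (hf : ∀ i ∈ s, Van (f i) q n) : Van (fun p => ∑ i ∈ s, f i p) q n := by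
  classical
  induction s using Finset.induction_on with
  | empty =>
    refine ⟨0, Eventually.of_forall fun y => ?_⟩
    simp
  | insert a s ha ih =>
    have h1 : Van (f a) q n := hf a (Finset.mem_insert_self a s)
    have h2 := ih (fun i hi => hf i (Finset.mem_insert_of_mem hi))
    have h3 := van_add h1 h2
    have h4 : (fun p => ∑ i ∈ insert a s, f i p) = fun p => f a p + ∑ i ∈ s, f i p := by
      funext p
      rw [Finset.sum_insert ha]
    rw [h4]
    exact h3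

theorem van_mul {f g : ℂ × ℂ → ℂ} {q : ℂ × ℂ} {n : ℕ} (hf : Van f q n) (hg : ContinuousAt g q) :
    Van (fun p => g p * f p) q n := by
  obtain ⟨C, hC⟩ := hf
  have hb : ∀ᶠ y in 𝓝 q, ‖g y‖ < ‖g q‖ + 1 :=
    hg.norm.eventually (gt_mem_nhds (lt_add_one ‖g q‖))
  refine ⟨(‖g q‖ + 1) * |C|, ?_⟩
  filter_upwards [hC, hb] with y h1 h2
  have h3 : ‖f y‖ ≤ |C| * dist y q ^ n :=
    h1.trans (mul_le_mul_of_nonneg_right (le_abs_self C) (pow_nonneg dist_nonneg n))
  calc ‖g y * f y‖ = ‖g y‖ * ‖f y‖ := norm_mul _ _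
    _ ≤ (‖g q‖ + 1) * (|C| * dist y q ^ n) :=
        mul_le_mul h2.le h3 (norm_nonneg _) (add_nonneg (norm_nonneg _) zero_le_one)
    _ = (‖g q‖ + 1) * |C| * dist y q ^ n := by ring

theorem van_mono {f : ℂ × ℂ → ℂ} {q : ℂ × ℂ} {n m : ℕ} (h : n ≤ m) (hf : Van f q m) :
    Van f q n := by
  obtain ⟨C, hC⟩ := hf
  have hb : ∀ᶠ y in 𝓝 q, dist y q < 1 := Metric.eventually_nhds_iff_ball.2 ⟨1, one_pos,
    fun y hy => mem_ball.1 hy⟩
  refine ⟨|C|, ?_⟩
  filter_upwards [hC, hb] with y h1 h2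
  calc ‖f y‖ ≤ C * dist y q ^ m := h1
    _ ≤ |C| * dist y q ^ m :=
        mul_le_mul_of_nonneg_right (le_abs_self C) (pow_nonneg dist_nonneg m)
    _ ≤ |C| * dist y q ^ n :=
        mul_le_mul_of_nonneg_left (pow_le_pow_of_le_one dist_nonneg h2.le h) (abs_nonneg C)

private theorem van_comp_aux {f g : ℂ × ℂ → ℂ} {q : ℂ × ℂ} {n : ℕ} (hf : Van f q n)
    (hg : ∀ y, ‖g y‖ ≤ dist y q) : Van (fun p => g p * f p) q (n + 1) := by
  obtain ⟨C, hC⟩ := hf
  refine ⟨|C|, ?_⟩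
  filter_upwards [hC] with y h1
  have h3 : ‖f y‖ ≤ |C| * dist y q ^ n :=
    h1.trans (mul_le_mul_of_nonneg_right (le_abs_self C) (pow_nonneg dist_nonneg n))
  calc ‖g y * f y‖ = ‖g y‖ * ‖f y‖ := norm_mul _ _
    _ ≤ dist y q * (|C| * dist y q ^ n) :=
        mul_le_mul (hg y) h3 (norm_nonneg _) dist_nonneg
    _ = |C| * dist y q ^ (n + 1) := by ring

theorem van_fst {f : ℂ × ℂ → ℂ} {q : ℂ × ℂ} {n : ℕ} (hf : Van f q n) :
    Van (fun p => (p - q).1 * f p) q (n + 1) := by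
  refine van_comp_aux (g := fun p => (p - q).1) hf (fun y => ?_)
  rw [dist_eq_norm]
  exact norm_fst_le (y - q)

theorem van_snd {f : ℂ × ℂ → ℂ} {q : ℂ × ℂ} {n : ℕ} (hf : Van f q n) :
    Van (fun p => (p - q).2 * f p) q (n + 1) := by
  refine van_comp_aux (g := fun p => (p - q).2) hf (fun y => ?_)
  rw [dist_eq_norm]
  exact norm_snd_le (y - q)

theorem van_fd {f : ℂ × ℂ → ℂ} {q : ℂ × ℂ} {n : ℕ} (hf : AnalyticAt ℂ f q) (hV : Van f q (n + 1))
    (v : ℂ × ℂ) : Van (fun p => fderiv ℂ f p v) q n := by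
  obtain ⟨C, hC⟩ := hV
  have hd : ∀ᶠ y in 𝓝 q, DifferentiableAt ℂ f y :=
    hf.eventually_analyticAt.mono fun y hy => hy.differentiableAt
  obtain ⟨R, hR, hball⟩ := Metric.eventually_nhds_iff_ball.1 (hC.and hd)
  have hv1 : 0 < ‖v‖ + 1 := add_pos_of_nonneg_of_pos (norm_nonneg v) one_pos
  have key : ∀ p ∈ ball q (R / 2), p ≠ q →
      ‖fderiv ℂ f p v‖ ≤ (|C| * 2 ^ (n + 1) * (‖v‖ + 1)) * dist p q ^ n := by
    intro p hp hpq
    have hρ : 0 < dist p q := dist_pos.2 hpq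
    have hρR : dist p q < R / 2 := mem_ball.1 hp
    have hr : 0 < dist p q / (‖v‖ + 1) := div_pos hρ hv1
    have hz : ∀ z : ℂ, ‖z‖ ≤ dist p q / (‖v‖ + 1) → dist (p + z • v) q ≤ 2 * dist p q := by
      intro z hz
      have h1 : ‖z • v‖ ≤ dist p q := by
        rw [norm_smul]
        calc ‖z‖ * ‖v‖ ≤ (dist p q / (‖v‖ + 1)) * (‖v‖ + 1) :=
              mul_le_mul hz (le_add_of_nonneg_right zero_le_one) (norm_nonneg v) hr.le
          _ = dist p q := div_mul_cancel₀ _ hv1.ne'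
      calc dist (p + z • v) q ≤ dist (p + z • v) p + dist p q := dist_triangle _ _ _
        _ = ‖z • v‖ + dist p q := by rw [dist_eq_norm, add_sub_cancel_left]
        _ ≤ 2 * dist p q := by linarith
    have hzb : ∀ z : ℂ, ‖z‖ ≤ dist p q / (‖v‖ + 1) → p + z • v ∈ ball q R := by
      intro z hz'
      have := hz z hz'
      exact mem_ball.2 (by linarith)
    have hlin : ∀ z : ℂ, HasDerivAt (fun z : ℂ => p + z • v) v z := by
      intro z
      have h1 : HasDerivAt (fun z : ℂ => z • v) ((1 : ℂ) • v) z := (hasDerivAt_id z).smul_const v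
      rw [one_smul] at h1
      exact h1.const_add p
    have hdiff : ∀ z : ℂ, ‖z‖ ≤ dist p q / (‖v‖ + 1) →
        DifferentiableAt ℂ (fun z : ℂ => f (p + z • v)) z := by
      intro z hz'
      have h1 : DifferentiableAt ℂ f (p + z • v) := (hball _ (hzb z hz')).2
      exact DifferentiableAt.comp z h1 (hlin z).differentiableAt
    have hdc : DiffContOnCl ℂ (fun z : ℂ => f (p + z • v)) (ball 0 (dist p q / (‖v‖ + 1))) := by
      refine DifferentiableOn.diffContOnCl ?_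
      rw [closure_ball (0 : ℂ) hr.ne']
      intro z hz'
      exact (hdiff z (mem_closedBall_zero_iff.1 hz')).differentiableWithinAt
    have hsph : ∀ z ∈ sphere (0 : ℂ) (dist p q / (‖v‖ + 1)),
        ‖(fun z : ℂ => f (p + z • v)) z‖ ≤ |C| * (2 * dist p q) ^ (n + 1) := by
      intro z hz'
      have hz2 : ‖z‖ ≤ dist p q / (‖v‖ + 1) := (mem_sphere_zero_iff_norm.1 hz').le
      calc ‖f (p + z • v)‖ ≤ C * dist (p + z • v) q ^ (n + 1) := (hball _ (hzb z hz2)).1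
        _ ≤ |C| * dist (p + z • v) q ^ (n + 1) :=
            mul_le_mul_of_nonneg_right (le_abs_self C) (pow_nonneg dist_nonneg _)
        _ ≤ |C| * (2 * dist p q) ^ (n + 1) :=
            mul_le_mul_of_nonneg_left (pow_le_pow_left₀ dist_nonneg (hz z hz2) _) (abs_nonneg C)
    have hmain := Complex.norm_deriv_le_of_forall_mem_sphere_norm_le hr hdc hsph
    have hder : deriv (fun z : ℂ => f (p + z • v)) 0 = fderiv ℂ f p v := by
      have h0 : p + (0 : ℂ) • v = p := by rw [zero_smul, add_zero]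
      have h1 : DifferentiableAt ℂ f (p + (0 : ℂ) • v) :=
        (hball _ (hzb 0 (by rw [norm_zero]; exact hr.le))).2
      have h2 : HasDerivAt (f ∘ fun z : ℂ => p + z • v) (fderiv ℂ f (p + (0 : ℂ) • v) v) 0 :=
        h1.hasFDerivAt.comp_hasDerivAt (0 : ℂ) (hlin 0)
      have h3 := h2.deriv
      rw [h0] at h3
      exact h3
    rw [hder] at hmain
    refine hmain.trans (le_of_eq ?_)
    field_simp
    ring
  have hne : ∀ᶠ p in 𝓝[≠] q,
      ‖fderiv ℂ f p v‖ ≤ (|C| * 2 ^ (n + 1) * (‖v‖ + 1)) * dist p q ^ n := by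
    rw [eventually_nhdsWithin_iff]
    refine Metric.eventually_nhds_iff_ball.2 ⟨R / 2, half_pos hR, fun p hp hpq => key p hp hpq⟩
  have hq : ‖fderiv ℂ f q v‖ ≤ (|C| * 2 ^ (n + 1) * (‖v‖ + 1)) * dist q q ^ n := by
    have hc1 : ContinuousAt (fun p => ‖fderiv ℂ f p v‖) q := (an_fd hf v).continuousAt.norm
    have hc2 : ContinuousAt (fun p => (|C| * 2 ^ (n + 1) * (‖v‖ + 1)) * dist p q ^ n) q := by
      fun_prop
    exact le_of_tendsto_of_tendsto (hc1.tendsto.mono_left nhdsWithin_le_nhds)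
      (hc2.tendsto.mono_left nhdsWithin_le_nhds) hne
  refine ⟨|C| * 2 ^ (n + 1) * (‖v‖ + 1), ?_⟩
  rw [eventually_nhdsWithin_iff] at hne
  filter_upwards [hne] with p hp
  by_cases hpq : p = q
  · rw [hpq]
    exact hq
  · exact hp hpq

theorem van_zero {f : ℂ × ℂ → ℂ} {q : ℂ × ℂ} (hf : AnalyticAt ℂ f q) (hV : ∀ n, Van f q n) :
    ∀ᶠ p in 𝓝 q, f p = 0 := by
  obtain ⟨R, hR, hball⟩ := Metric.eventually_nhds_iff_ball.1 hf.eventually_analyticAt
  refine Metric.eventually_nhds_iff_ball.2 ⟨R, hR, fun p hp => ?_⟩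
  by_cases hpq : p = q
  · -- value at q
    obtain ⟨C, hC⟩ := hV 1
    have h1 := hC.self_of_nhds
    rw [dist_self, pow_one, mul_zero] at h1
    rw [hpq]
    exact norm_le_zero_iff.1 h1
  have hρ : 0 < dist p q := dist_pos.2 hpq
  have hρR : dist p q < R := mem_ball.1 hp
  have hr1 : 1 < R / dist p q := (one_lt_div hρ).2 hρR
  have hnorm : ‖p - q‖ = dist p q := (dist_eq_norm p q).symm
  have hdist : ∀ s : ℂ, dist (q + s • (p - q)) q = ‖s‖ * dist p q := by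
    intro s
    rw [dist_eq_norm, add_sub_cancel_left, norm_smul, hnorm]
  have hmem : ∀ s ∈ ball (0 : ℂ) (R / dist p q), q + s • (p - q) ∈ ball q R := by
    intro s hs
    rw [mem_ball, hdist]
    rw [mem_ball_zero_iff] at hs
    exact (lt_div_iff₀ hρ).1 hs
  have hlin : ∀ s : ℂ, AnalyticAt ℂ (fun s : ℂ => q + s • (p - q)) s := by
    intro s
    exact analyticAt_const.add (analyticAt_id.smul analyticAt_const)
  have hgan : AnalyticOnNhd ℂ (fun s : ℂ => f (q + s • (p - q))) (ball 0 (R / dist p q)) := by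
    intro s hs
    exact AnalyticAt.fun_comp (g := f) (f := fun s : ℂ => q + s • (p - q))
      (hball _ (hmem s hs)) (hlin s)
  have h0mem : (0 : ℂ) ∈ ball (0 : ℂ) (R / dist p q) := mem_ball_self (one_pos.trans hr1)
  have hq0 : q + (0 : ℂ) • (p - q) = q := by rw [zero_smul, add_zero]
  have hg0 : AnalyticAt ℂ (fun s : ℂ => f (q + s • (p - q))) 0 := hgan 0 h0mem
  have hev : ∀ᶠ s in 𝓝 (0 : ℂ), f (q + s • (p - q)) = 0 := by
    by_contra hnot
    obtain ⟨k, h, han, hne0, heq⟩ :=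
      hg0.exists_eventuallyEq_pow_smul_nonzero_iff.2 hnot
    obtain ⟨C, hC⟩ := hV (k + 1)
    have ht : Tendsto (fun s : ℂ => q + s • (p - q)) (𝓝 0) (𝓝 q) := by
      have := (hlin 0).continuousAt.tendsto
      simp only [hq0] at this
      exact this
    have hC' := ht.eventually hC
    -- near 0 and s ≠ 0: ‖h s‖ ≤ |C| * dist p q ^ (k+1) * ‖s‖
    have hb : ∀ᶠ s in 𝓝[≠] (0 : ℂ), ‖h s‖ ≤ (C * dist p q ^ (k + 1)) * ‖s‖ := by
      rw [eventually_nhdsWithin_iff]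
      filter_upwards [hC', heq] with s h1 h2 hs
      have hs0 : s ≠ 0 := hs
      have hsp : 0 < ‖s‖ ^ k := pow_pos (norm_pos_iff.2 hs0) k
      rw [h2, hdist, sub_zero, norm_smul, norm_pow] at h1
      refine le_of_mul_le_mul_left ?_ hsp
      refine h1.trans (le_of_eq ?_)
      ring
    have hc1 : Tendsto (fun s => ‖h s‖) (𝓝[≠] (0 : ℂ)) (𝓝 ‖h 0‖) :=
      han.continuousAt.norm.tendsto.mono_left nhdsWithin_le_nhds
    have hc2 : Tendsto (fun s : ℂ => (C * dist p q ^ (k + 1)) * ‖s‖) (𝓝[≠] (0 : ℂ))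
        (𝓝 ((C * dist p q ^ (k + 1)) * ‖(0 : ℂ)‖)) := by
      have : ContinuousAt (fun s : ℂ => (C * dist p q ^ (k + 1)) * ‖s‖) 0 := by fun_prop
      exact this.tendsto.mono_left nhdsWithin_le_nhds
    have hle := le_of_tendsto_of_tendsto hc1 hc2 hb
    rw [norm_zero, mul_zero] at hle
    exact hne0 (norm_le_zero_iff.1 hle)
  have heqOn := hgan.eqOn_zero_of_preconnected_of_eventuallyEq_zero
    (convex_ball (0 : ℂ) (R / dist p q)).isPreconnected h0mem hev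
  have h1mem : (1 : ℂ) ∈ ball (0 : ℂ) (R / dist p q) := by
    rw [mem_ball_zero_iff, norm_one]
    exact hr1
  have h1 := heqOn h1mem
  have h2 : q + (1 : ℂ) • (p - q) = p := by rw [one_smul, add_sub_cancel]
  have h3 : f (q + (1 : ℂ) • (p - q)) = 0 := h1
  rw [h2] at h3
  exact h3

end Pool.Agent.MP_ae5b4e_an_NB1D
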