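import Pool.Agent.Lib.MP_ae5b4e_an_NB1D.RadO
import Pool.Agent.Lib.MP_ae5b4e_an_NB1D.RadC
import Pool.Agent.Lib.MP_ae5b4e_an_NB1D.VanD

/-!
# MP_ae5b4e_an, NB_1 Lemma (2.1): a total differential system with approximate solutions
-/

noncomputable section

namespace Pool.Agent.MP_ae5b4e_an_NB1D

open Complex Set Filter Topology Metric
open Pool.Agent.MP_ae5b4e_an_NB1 (Van FRel ARel Jac)

private lemma fd_sub {f g : ℂ × ℂ → ℂ} {p : ℂ × ℂ} (hf : AnalyticAt ℂ f p) (hg : AnalyticAt ℂ g p)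
    (v : ℂ × ℂ) : fderiv ℂ (fun z => f z - g z) p v = fderiv ℂ f p v - fderiv ℂ g p v := by
  have h : (fun z => f z - g z) = f - g := rfl
  rw [h, fderiv_sub hf.differentiableAt hg.differentiableAt]
  rfl

theorem sys {ι : Type} [Fintype ι] {p₀ q : ℂ × ℂ} {r : ℝ} (hq : q ∈ ball p₀ r)
    {N : ι → ι → ℂ × ℂ → ℂ} {y : ι → ℂ × ℂ → ℂ} (hN : ∀ s s', AnalyticOnNhd ℂ (N s s') (ball p₀ r))
    (hy : ∀ s, AnalyticOnNhd ℂ (y s) (ball p₀ r)) {U₀ : ι → ℂ} {P : ℕ → ι → ℂ × ℂ → ℂ}
    (hP : ∀ n s, AnalyticAt ℂ (P n s) q) (hP0 : ∀ n s, P n s q = U₀ s)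
    (h1 : ∀ n s, Van (fun p => D1 (P n s) p - (∑ s', N s s' p * P n s' p) * D1 (y s) p) q n)
    (h2 : ∀ n s, Van (fun p => D2 (P n s) p - (∑ s', N s s' p * P n s' p) * D2 (y s) p) q n) :
    ∃ U : ι → ℂ × ℂ → ℂ, (∀ s, AnalyticOnNhd ℂ (U s) (ball p₀ r)) ∧ (∀ s, U s q = U₀ s) ∧
      (∀ s, ∀ p ∈ ball p₀ r, fderiv ℂ (U s) p = (∑ s', N s s' p * U s' p) • fderiv ℂ (y s) p) ∧
      ∀ n s, Van (fun p => P n s p - U s p) q (n + 1) := by
  obtain ⟨U, hU, hU0, hUr⟩ := rad_ode hq hN hy U₀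
  have hball : ∀ᶠ p in 𝓝 q, p ∈ ball p₀ r := isOpen_ball.mem_nhds hq
  have hW : ∀ n s, AnalyticAt ℂ (fun p => P n s p - U s p) q := fun n s =>
    (hP n s).fun_sub (hU s q hq)
  have hV : ∀ n s, Van (fun p => P n s p - U s p) q (n + 1) := by
    intro n s
    refine rad_cmp (N := N) (y := y) (W := fun s p => P n s p - U s p)
      (fun s s' => hN s s' q hq) (fun s => hy s q hq) (hW n) (fun s => ?_) (fun s => ?_) s
    · show P n s q - U s q = 0
      rw [hP0, hU0, sub_self]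
    · have hPe : ∀ᶠ p in 𝓝 q, ∀ s, AnalyticAt ℂ (P n s) p :=
        eventually_all.2 fun s => (hP n s).eventually_analyticAt
      refine van_congr ?_ (van_add (van_fst (h1 n s)) (van_snd (h2 n s)))
      filter_upwards [hball, hPe] with p hp hPp
      rw [fd_sub (hPp s) (hU s p hp), hUr s p hp]
      have e : (∑ s', N s s' p * (P n s' p - U s' p)) =
          (∑ s', N s s' p * P n s' p) - ∑ s', N s s' p * U s' p := by
        rw [← Finset.sum_sub_distrib]
        exact Finset.sum_congr rfl fun s' _ => by ring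
      show _ = _ - (∑ s', N s s' p * (P n s' p - U s' p)) * _
      rw [e, fderiv_eq (P n s) p (p - q), fderiv_eq (y s) p (p - q)]
      ring
  refine ⟨U, hU, hU0, ?_, hV⟩
  -- both partial equations
  have key : ∀ v : ℂ × ℂ, (∀ n s, Van (fun p => fderiv ℂ (P n s) p v -
      (∑ s', N s s' p * P n s' p) * fderiv ℂ (y s) p v) q n) →
      ∀ s, ∀ p ∈ ball p₀ r, fderiv ℂ (U s) p v - (∑ s', N s s' p * U s' p) * fderiv ℂ (y s) p v =
        0 := by
    intro v hv s
    have hEan : AnalyticOnNhd ℂ (fun p => fderiv ℂ (U s) p v -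
        (∑ s', N s s' p * U s' p) * fderiv ℂ (y s) p v) (ball p₀ r) := fun p hp =>
      (an_fd (hU s p hp) v).fun_sub ((Finset.analyticAt_fun_sum _ fun s' _ =>
        (hN s s' p hp).fun_mul (hU s' p hp)).fun_mul (an_fd (hy s p hp) v))
    have hEV : ∀ n, Van (fun p => fderiv ℂ (U s) p v -
        (∑ s', N s s' p * U s' p) * fderiv ℂ (y s) p v) q n := by
      intro n
      have g1 : Van (fun p => fderiv ℂ (fun z => P n s z - U s z) p v) q n :=
        van_fd (hW n s) (hV n s) v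
      have g2 : Van (fun p => fderiv ℂ (y s) p v *
          ∑ s', N s s' p * (P n s' p - U s' p)) q n := by
        refine van_mul (van_sum fun s' _ => ?_) (an_fd (hy s q hq) v).continuousAt
        exact van_mul (van_mono (Nat.le_succ n) (hV n s')) (hN s s' q hq).continuousAt
      have hPe : ∀ᶠ p in 𝓝 q, AnalyticAt ℂ (P n s) p := (hP n s).eventually_analyticAt
      refine van_congr ?_ (van_add (van_sub (hv n s) g1) g2)
      filter_upwards [hball, hPe] with p hp hPp
      rw [fd_sub hPp (hU s p hp)]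
      have e : (∑ s', N s s' p * (P n s' p - U s' p)) =
          (∑ s', N s s' p * P n s' p) - ∑ s', N s s' p * U s' p := by
        rw [← Finset.sum_sub_distrib]
        exact Finset.sum_congr rfl fun s' _ => by ring
      rw [e]
      ring
    have hz := van_zero (hEan q hq) hEV
    have := hEan.eqOn_zero_of_preconnected_of_eventuallyEq_zero
      (convex_ball p₀ r).isPreconnected hq hz
    exact fun p hp => this hp
  have k1 := key (1, 0) h1
  have k2 := key (0, 1) h2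
  intro s p hp
  refine ContinuousLinearMap.ext fun v => ?_
  rw [fderiv_eq (U s) p v]
  have e1 : D1 (U s) p = (∑ s', N s s' p * U s' p) * D1 (y s) p := sub_eq_zero.1 (k1 s p hp)
  have e2 : D2 (U s) p = (∑ s', N s s' p * U s' p) * D2 (y s) p := sub_eq_zero.1 (k2 s p hp)
  have e3 : ((∑ s', N s s' p * U s' p) • fderiv ℂ (y s) p) v =
      (∑ s', N s s' p * U s' p) * fderiv ℂ (y s) p v := rfl
  rw [e1, e2, e3, fderiv_eq (y s) p v]
  ring

end Pool.Agent.MP_ae5b4e_an_NB1D
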