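import Pool.Agent.Lib.MP_ae5b4e_an_NB1D.Defs

/-!
# MP_ae5b4e_an, NB_1 Lemma (2.1): the Vandermonde matrix of the first derivatives
-/

noncomputable section

namespace Pool.Agent.MP_ae5b4e_an_NB1D

open Complex Set Filter Topology Metric
open Pool.Agent.MP_ae5b4e_an_NB1 (Van FRel ARel Jac)

/-- the projective Vandermonde matrix of the first derivatives -/
def vdmA (M : ℕ) (y : ℕ → ℂ × ℂ → ℂ) (p : ℂ × ℂ) : Matrix (Fin (M + 1)) (Fin (M + 1)) ℂ :=
  Matrix.of fun a j => (D1 (y j) p) ^ (a : ℕ) * (D2 (y j) p) ^ (M - (a : ℕ))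

theorem vdmA_det {D : Set (ℂ × ℂ)} {M : ℕ} {y : ℕ → ℂ × ℂ → ℂ}
    (hJ : ∀ i j, i < j → j ≤ M → ∀ p ∈ D, Jac (y i) (y j) p ≠ 0) {p : ℂ × ℂ} (hp : p ∈ D) :
    (vdmA M y p).det ≠ 0 := by
  have h1 : vdmA M y p = (Matrix.projVandermonde (fun j : Fin (M + 1) => D1 (y j) p)
      (fun j : Fin (M + 1) => D2 (y j) p)).transpose := by
    ext a j
    rw [Matrix.transpose_apply, Matrix.projVandermonde_apply, vdmA, Matrix.of_apply, Fin.val_rev]
    have : M + 1 - ((a : ℕ) + 1) = M - a := by omega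
    rw [this]
  rw [h1, Matrix.det_transpose, Matrix.det_projVandermonde]
  refine Finset.prod_ne_zero_iff.2 fun i _ => Finset.prod_ne_zero_iff.2 fun j hj => ?_
  have hij : (i : ℕ) < j := by
    have := Finset.mem_Ioi.1 hj
    exact this
  have h2 := hJ i j hij (by have := j.2; omega) p hp
  rw [jac_eq] at h2
  intro h3
  apply h2
  linear_combination -h3

theorem an_vdmA {D : Set (ℂ × ℂ)} {M : ℕ} {y : ℕ → ℂ × ℂ → ℂ}
    (hy : ∀ j ≤ M, AnalyticOnNhd ℂ (y j) D) {p : ℂ × ℂ} (hp : p ∈ D) (a j : Fin (M + 1)) :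
    AnalyticAt ℂ (fun q => vdmA M y q a j) p := by
  have hj : (j : ℕ) ≤ M := by have := j.2; omega
  have h := ((an_D1 (hy j hj p hp)).fun_pow (a : ℕ)).fun_mul
    ((an_D2 (hy j hj p hp)).fun_pow (M - (a : ℕ)))
  exact h

theorem an_det {n : ℕ} {F : ℂ × ℂ → Matrix (Fin n) (Fin n) ℂ} {p : ℂ × ℂ}
    (h : ∀ a j, AnalyticAt ℂ (fun q => F q a j) p) : AnalyticAt ℂ (fun q => (F q).det) p := by
  simp only [Matrix.det_apply]
  refine Finset.analyticAt_fun_sum _ fun s _ => ?_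
  have h1 : AnalyticAt ℂ (fun q => ∏ i, F q (s i) i) p :=
    Finset.analyticAt_fun_prod _ fun i _ => h (s i) i
  have h2 : (fun q => Equiv.Perm.sign s • ∏ i, F q (s i) i) =
      fun q => (((Equiv.Perm.sign s : ℤˣ) : ℤ) : ℂ) * ∏ i, F q (s i) i := by
    funext q
    rw [Units.smul_def, zsmul_eq_mul]
  rw [h2]
  exact analyticAt_const.fun_mul h1

theorem an_adj {n : ℕ} {F : ℂ × ℂ → Matrix (Fin n) (Fin n) ℂ} {p : ℂ × ℂ}
    (h : ∀ a j, AnalyticAt ℂ (fun q => F q a j) p) (i k : Fin n) :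
    AnalyticAt ℂ (fun q => (F q).adjugate i k) p := by
  simp only [Matrix.adjugate_apply]
  refine an_det fun a j => ?_
  by_cases hak : a = k
  · subst hak
    simp only [Matrix.updateRow_self]
    exact analyticAt_const
  · simp only [Matrix.updateRow_ne hak]
    exact h a j

theorem vdm {D : Set (ℂ × ℂ)} (hD : IsOpen D) {M : ℕ} {y : ℕ → ℂ × ℂ → ℂ}
    (hy : ∀ j ≤ M, AnalyticOnNhd ℂ (y j) D)
    (hJ : ∀ i j, i < j → j ≤ M → ∀ p ∈ D, Jac (y i) (y j) p ≠ 0) :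
    ∃ w : ℕ → ℕ → ℂ × ℂ → ℂ, (∀ j a, AnalyticOnNhd ℂ (w j a) D) ∧
      ∀ p ∈ D, ∀ b e : ℕ → ℂ,
        (∀ a ≤ M, ∑ j ∈ Finset.range (M + 1), b j * ((D1 (y j) p) ^ a * (D2 (y j) p) ^ (M - a)) =
          e a) →
        ∀ j ≤ M, b j = ∑ a ∈ Finset.range (M + 1), w j a p * e a := by
  classical
  have _ := hD
  refine ⟨fun j a p => if h : j < M + 1 ∧ a < M + 1 then
      ((vdmA M y p).det)⁻¹ * (vdmA M y p).adjugate ⟨j, h.1⟩ ⟨a, h.2⟩ else 0, ?_, ?_⟩
  · intro j a p hp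
    by_cases h : j < M + 1 ∧ a < M + 1
    · simp only [dif_pos h]
      exact ((an_det fun a j => an_vdmA hy hp a j).fun_inv (vdmA_det hJ hp)).fun_mul
        (an_adj (fun a j => an_vdmA hy hp a j) _ _)
    · simp only [dif_neg h]
      exact analyticAt_const
  · intro p hp b e hbe j hj
    have hj' : j < M + 1 := by omega
    have h1 : (vdmA M y p).mulVec (fun i : Fin (M + 1) => b i) = fun a : Fin (M + 1) => e a := by
      funext a
      have ha : (a : ℕ) ≤ M := by have := a.2; omega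
      rw [← hbe a ha, Finset.sum_range, Matrix.mulVec, dotProduct]
      refine Finset.sum_congr rfl fun i _ => ?_
      rw [vdmA, Matrix.of_apply]
      ring
    have h2 := congrArg (fun v => (vdmA M y p).adjugate.mulVec v) h1
    simp only [Matrix.mulVec_mulVec, Matrix.adjugate_mul, Matrix.smul_mulVec,
      Matrix.one_mulVec] at h2
    have h3 := congrFun h2 ⟨j, hj'⟩
    simp only [Pi.smul_apply, smul_eq_mul, Matrix.mulVec, dotProduct] at h3
    have hd := vdmA_det hJ hp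
    rw [Finset.sum_range]
    have h4 : b j = ((vdmA M y p).det)⁻¹ * ((vdmA M y p).det * b j) := by
      rw [← mul_assoc, inv_mul_cancel₀ hd, one_mul]
    rw [h4, h3, Finset.mul_sum]
    refine Finset.sum_congr rfl fun a _ => ?_
    have h5 : (fun j a p => if h : j < M + 1 ∧ a < M + 1 then
        ((vdmA M y p).det)⁻¹ * (vdmA M y p).adjugate ⟨j, h.1⟩ ⟨a, h.2⟩ else 0 :
          ℕ → ℕ → ℂ × ℂ → ℂ) j a p = ((vdmA M y p).det)⁻¹ * (vdmA M y p).adjugate ⟨j, hj'⟩ a :=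
      dif_pos (⟨hj', a.2⟩ : j < M + 1 ∧ (a : ℕ) < M + 1)
    rw [h5, mul_assoc]

end Pool.Agent.MP_ae5b4e_an_NB1D
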