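import Pool.Agent.Lib.MP_ae5b4e_an_NB1D.Faa
import Pool.Agent.Lib.MP_ae5b4e_an_NB1D.VdM
import Pool.Agent.Lib.MP_ae5b4e_an_NB1D.FunOf
import Pool.Agent.Lib.MP_ae5b4e_an_NB1D.SysF

/-!
# MP_ae5b4e_an, NB_1 Lemma (2.1): a formal relation at one point of a ball extends
-/

noncomputable section

namespace Pool.Agent.MP_ae5b4e_an_NB1D

open Complex Set Filter Topology Metric
open Pool.Agent.MP_ae5b4e_an_NB1 (Van FRel ARel Jac)

section ArL

/-- directional derivative -/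
private def Dv (v : ℂ × ℂ) (f : ℂ × ℂ → ℂ) (p : ℂ × ℂ) : ℂ := fderiv ℂ f p v

private lemma dv_an {v : ℂ × ℂ} {f : ℂ × ℂ → ℂ} {D : Set (ℂ × ℂ)} (hf : AnalyticOnNhd ℂ f D)
    (a : ℕ) : AnalyticOnNhd ℂ ((Dv v)^[a] f) D := by
  induction a with
  | zero => exact hf
  | succ a ih =>
    rw [Function.iterate_succ_apply']
    exact fun p hp => an_fd (ih p hp) v

private lemma dv_congr {v : ℂ × ℂ} {D : Set (ℂ × ℂ)} (hD : IsOpen D) {f g : ℂ × ℂ → ℂ}
    (h : ∀ p ∈ D, f p = g p) (a : ℕ) : ∀ p ∈ D, ((Dv v)^[a] f) p = ((Dv v)^[a] g) p := by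
  induction a with
  | zero => exact h
  | succ a ih =>
    intro p hp
    rw [Function.iterate_succ_apply', Function.iterate_succ_apply']
    have h1 : (Dv v)^[a] f =ᶠ[𝓝 p] (Dv v)^[a] g := by
      filter_upwards [hD.mem_nhds hp] with z hz
      exact ih z hz
    show fderiv ℂ _ p v = fderiv ℂ _ p v
    rw [h1.fderiv_eq]

private lemma dv_sum {v : ℂ × ℂ} {D : Set (ℂ × ℂ)} (hD : IsOpen D) {s : Finset ℕ}
    {f : ℕ → ℂ × ℂ → ℂ} (hf : ∀ j ∈ s, AnalyticOnNhd ℂ (f j) D) (a : ℕ) :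
    ∀ p ∈ D, ((Dv v)^[a] (fun p => ∑ j ∈ s, f j p)) p = ∑ j ∈ s, ((Dv v)^[a] (f j)) p := by
  induction a with
  | zero =>
    intro p _
    rfl
  | succ a ih =>
    intro p hp
    rw [Function.iterate_succ_apply']
    have h1 : (Dv v)^[a] (fun p => ∑ j ∈ s, f j p) =ᶠ[𝓝 p]
        fun p => ∑ j ∈ s, ((Dv v)^[a] (f j)) p := by
      filter_upwards [hD.mem_nhds hp] with z hz
      exact ih z hz
    show fderiv ℂ _ p v = _
    rw [h1.fderiv_eq, fderiv_fun_sum fun j hj => (dv_an (hf j hj) a p hp).differentiableAt,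
      _root_.sum_apply]
    refine Finset.sum_congr rfl fun j _ => ?_
    rw [Function.iterate_succ_apply']
    rfl

private lemma dv_van {v : ℂ × ℂ} {q : ℂ × ℂ} {n a : ℕ} {f : ℂ × ℂ → ℂ} (hf : AnalyticAt ℂ f q)
    (hV : Van f q (n + a)) : Van ((Dv v)^[a] f) q n := by
  induction a generalizing f with
  | zero => exact hV
  | succ a ih =>
    rw [Function.iterate_succ_apply]
    exact ih (an_fd hf v) (van_fd hf hV v)

private lemma an_poly {y : ℂ × ℂ → ℂ} {p : ℂ × ℂ} (hy : AnalyticAt ℂ y p) (y₀ : ℂ)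
    (ψ : Polynomial ℂ) : AnalyticAt ℂ (fun z => ψ.eval (y z - y₀)) p := by
  have h := (hy.fun_sub (analyticAt_const (v := y₀))).aeval_polynomial ψ
  simp only [Polynomial.coe_aeval_eq_eval] at h
  exact h

private lemma fd_poly {y : ℂ × ℂ → ℂ} {p : ℂ × ℂ} (hy : AnalyticAt ℂ y p) (y₀ : ℂ)
    (ψ : Polynomial ℂ) (v : ℂ × ℂ) : fderiv ℂ (fun z => ψ.eval (y z - y₀)) p v =
      ψ.derivative.eval (y p - y₀) * fderiv ℂ y p v := by
  have h1 : HasFDerivAt (fun z => y z - y₀) (fderiv ℂ y p) p :=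
    hy.differentiableAt.hasFDerivAt.sub_const y₀
  have h2 := (ψ.hasDerivAt (y p - y₀)).comp_hasFDerivAt p h1
  have h3 : fderiv ℂ (fun z => ψ.eval (y z - y₀)) p = _ := h2.fderiv
  rw [h3]
  rfl

/-- the coefficients of a polynomial in `y` with a zero of high order -/
private lemma co_zero {y : ℂ × ℂ → ℂ} {q v : ℂ × ℂ} (hy : AnalyticAt ℂ y q)
    (hv : fderiv ℂ y q v ≠ 0) (n : ℕ) : ∀ ψ : Polynomial ℂ,
      Van (fun p => ψ.eval (y p - y q)) q (n + 1) → ∀ m ≤ n, ψ.coeff m = 0 := by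
  have h0 : ∀ (n : ℕ) (ψ : Polynomial ℂ), Van (fun p => ψ.eval (y p - y q)) q (n + 1) →
      ψ.coeff 0 = 0 := by
    intro n ψ h
    obtain ⟨C, hC⟩ := h
    have h1 : ‖ψ.eval (y q - y q)‖ ≤ C * dist q q ^ (n + 1) := hC.self_of_nhds
    rw [sub_self, dist_self, zero_pow (Nat.succ_ne_zero n), mul_zero] at h1
    rw [Polynomial.coeff_zero_eq_eval_zero]
    exact norm_le_zero_iff.1 h1
  induction n with
  | zero =>
    intro ψ h m hm
    rw [Nat.le_zero.1 hm]
    exact h0 0 ψ h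
  | succ n ih =>
    intro ψ h m hm
    rcases m with _ | m
    · exact h0 (n + 1) ψ h
    · have h1 : Van (fun p => fderiv ℂ (fun z => ψ.eval (y z - y q)) p v) q (n + 1) :=
        van_fd (an_poly hy (y q) ψ) h v
      have h2 : Van (fun p => ψ.derivative.eval (y p - y q)) q (n + 1) := by
        refine van_congr ?_ (van_mul h1 ((an_fd hy v).continuousAt.inv₀ hv))
        have hne : ∀ᶠ p in 𝓝 q, fderiv ℂ y p v ≠ 0 :=
          (an_fd hy v).continuousAt.eventually_ne hv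
        filter_upwards [hne, hy.eventually_analyticAt] with p hp hyp
        rw [fd_poly hyp (y q) ψ v]
        show (fderiv ℂ y p v)⁻¹ * (_ * fderiv ℂ y p v) = _
        rw [mul_comm _ (fderiv ℂ y p v), inv_mul_cancel_left₀ hp]
      have h3 := ih ψ.derivative h2 m (Nat.le_of_succ_le_succ hm)
      rw [Polynomial.coeff_derivative] at h3
      have h4 : ((m : ℂ) + 1) ≠ 0 := by exact_mod_cast Nat.succ_ne_zero m
      exact (mul_eq_zero.1 h3).resolve_right h4

/-- the derivatives of the truncated series -/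
private def Qf (M : ℕ) (y : ℕ → ℂ × ℂ → ℂ) (q : ℂ × ℂ) (φ : ℕ → PowerSeries ℂ) (n j k : ℕ)
    (p : ℂ × ℂ) : ℂ :=
  (Polynomial.derivative^[k] ((φ j).trunc (n + M + 1))).eval (y j p - y j q)

variable {p₀ q : ℂ × ℂ} {r : ℝ} {M : ℕ} {y : ℕ → ℂ × ℂ → ℂ} {φ : ℕ → PowerSeries ℂ}

private lemma q_an {n j k : ℕ} {p : ℂ × ℂ} (hy : AnalyticAt ℂ (y j) p) :
    AnalyticAt ℂ (Qf M y q φ n j k) p := an_poly hy _ _

private lemma q_fd {n j k : ℕ} {p : ℂ × ℂ} (hy : AnalyticAt ℂ (y j) p) (v : ℂ × ℂ) :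
    fderiv ℂ (Qf M y q φ n j k) p v = Qf M y q φ n j (k + 1) p * fderiv ℂ (y j) p v := by
  have h := fd_poly hy (y j q) (Polynomial.derivative^[k] ((φ j).trunc (n + M + 1))) v
  rw [Qf, Function.iterate_succ_apply']
  exact h

private lemma q_at {n j k : ℕ} (hk : k < n + M + 1) : Qf M y q φ n j k q =
    (k.descFactorial k : ℂ) * PowerSeries.coeff k (φ j) := by
  rw [Qf, sub_self, ← Polynomial.coeff_zero_eq_eval_zero, Polynomial.coeff_iterate_derivative,
    zero_add, PowerSeries.coeff_trunc, if_pos hk, nsmul_eq_mul]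

private lemma inf_fd (hM : 2 ≤ M) (hJ : ∀ i j, i < j → j ≤ M → ∀ p ∈ ball p₀ r, Jac (y i) (y j) p ≠ 0)
    {j : ℕ} (hj : j ≤ M) {p : ℂ × ℂ} (hp : p ∈ ball p₀ r) : fderiv ℂ (y j) p ≠ 0 := by
  intro h
  rcases Nat.eq_zero_or_pos j with h0 | h0
  · have h1 := hJ j 1 (by omega) (by omega) p hp
    apply h1
    rw [Jac, h]
    simp
  · have h1 := hJ 0 j h0 hj p hp
    apply h1
    rw [Jac, h]
    simp

private lemma phi_an (hy : ∀ j ≤ M, AnalyticOnNhd ℂ (y j) (ball p₀ r)) (n : ℕ) :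
    AnalyticOnNhd ℂ (fun p => ∑ j ∈ Finset.range (M + 1), Qf M y q φ n j 0 p) (ball p₀ r) :=
  fun p hp => Finset.analyticAt_fun_sum _ fun j hj =>
    q_an (hy j (Nat.lt_succ_iff.1 (Finset.mem_range.1 hj)) p hp)

/-- the structure of the derivatives: a linear system -/
private lemma ar_sys (hM : 2 ≤ M) (hy : ∀ j ≤ M, AnalyticOnNhd ℂ (y j) (ball p₀ r))
    (hJ : ∀ i j, i < j → j ≤ M → ∀ p ∈ ball p₀ r, Jac (y i) (y j) p ≠ 0)
    (hq : q ∈ ball p₀ r) (hφ : FRel M y q φ) :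
    ∃ (w : ℕ → ℕ → ℂ × ℂ → ℂ) (K : ℕ → ℕ → ℕ → ℂ × ℂ → ℂ) (E : ℕ → ℕ → ℂ × ℂ → ℂ),
      (∀ j a, AnalyticOnNhd ℂ (w j a) (ball p₀ r)) ∧
      (∀ j i k, j ≤ M → i ≤ M → AnalyticOnNhd ℂ (K j i k) (ball p₀ r)) ∧
      (∀ n a, a ≤ M → Van (E n a) q (n + 1)) ∧
      ∀ n, ∀ j ≤ M, ∀ p ∈ ball p₀ r, Qf M y q φ n j M p =
        ∑ i ∈ Finset.range (M + 1), ∑ k ∈ Finset.range (M - 1),
          K j i k p * Qf M y q φ n i (k + 1) p +
        ∑ a ∈ Finset.range (M + 1), w j a p * E n a p := by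
  have hD : IsOpen (ball p₀ r) := isOpen_ball
  have hc0 : ∀ j ≤ M, ∀ a ≤ M, ∃ c : ℕ → ℂ × ℂ → ℂ, (∀ k, AnalyticOnNhd ℂ (c k) (ball p₀ r)) ∧
      ∀ ψ : Polynomial ℂ, ∀ p ∈ ball p₀ r,
        (D1^[a] (D2^[M - a] fun p => ψ.eval (y j p - y j q))) p =
          (Polynomial.derivative^[M] ψ).eval (y j p - y j q) *
            ((D1 (y j) p) ^ a * (D2 (y j) p) ^ (M - a)) +
          ∑ k ∈ Finset.range (M - 1), c k p *
            (Polynomial.derivative^[k + 1] ψ).eval (y j p - y j q) := by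
    intro j hj a ha
    have h := faa hD (hy j hj) (y j q) a (M - a) (by omega)
    rwa [Nat.add_sub_cancel' ha] at h
  choose! c hcan hc using hc0
  obtain ⟨w, hwan, hw⟩ := vdm hD hy hJ
  refine ⟨w, fun j i k p => -∑ a ∈ Finset.range (M + 1), w j a p * c i a k p,
    fun n a => D1^[a] (D2^[M - a] fun p => ∑ j ∈ Finset.range (M + 1), Qf M y q φ n j 0 p),
    hwan, ?_, ?_, ?_⟩
  · intro j i k hj hi p hp
    refine (Finset.analyticAt_fun_sum _ fun a ha => ?_).fun_neg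
    exact (hwan j a p hp).fun_mul (hcan i hi a (Nat.lt_succ_iff.1 (Finset.mem_range.1 ha)) k p hp)
  · intro n a ha
    have h1 : Van (fun p => ∑ j ∈ Finset.range (M + 1), Qf M y q φ n j 0 p) q (n + M + 1) :=
      hφ.2 (n + M)
    have h2 : n + M + 1 = n + 1 + a + (M - a) := by omega
    rw [h2] at h1
    have h3 : Van ((Dv (0, 1))^[M - a] fun p => ∑ j ∈ Finset.range (M + 1), Qf M y q φ n j 0 p) q
      (n + 1 + a) := dv_van (phi_an hy n q hq) h1
    exact dv_van (v := (1, 0)) (dv_an (v := (0, 1)) (phi_an hy n) (M - a) q hq) h3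
  · intro n j hj p hp
    set E : ℕ → ℂ := fun a =>
      (D1^[a] (D2^[M - a] fun p => ∑ j ∈ Finset.range (M + 1), Qf M y q φ n j 0 p)) p with hE
    have hEe : ∀ a ≤ M, E a = ∑ i ∈ Finset.range (M + 1), (Qf M y q φ n i M p *
        ((D1 (y i) p) ^ a * (D2 (y i) p) ^ (M - a)) +
        ∑ k ∈ Finset.range (M - 1), c i a k p * Qf M y q φ n i (k + 1) p) := by
      intro a ha
      have hi : ∀ i ∈ Finset.range (M + 1), AnalyticOnNhd ℂ (Qf M y q φ n i 0) (ball p₀ r) :=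
        fun i hi p hp => q_an (hy i (Nat.lt_succ_iff.1 (Finset.mem_range.1 hi)) p hp)
      have e1 : ∀ z ∈ ball p₀ r, ((Dv (0, 1))^[M - a] fun p =>
          ∑ j ∈ Finset.range (M + 1), Qf M y q φ n j 0 p) z =
          ∑ j ∈ Finset.range (M + 1), ((Dv (0, 1))^[M - a] (Qf M y q φ n j 0)) z :=
        dv_sum hD hi (M - a)
      have e2 : E a = ((Dv (1, 0))^[a] fun z => ∑ j ∈ Finset.range (M + 1),
          ((Dv (0, 1))^[M - a] (Qf M y q φ n j 0)) z) p := dv_congr hD e1 a p hp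
      have e3 := dv_sum (v := (1, 0)) hD (s := Finset.range (M + 1))
        (f := fun j => (Dv (0, 1))^[M - a] (Qf M y q φ n j 0))
        (fun i hi' => dv_an (hi i hi') (M - a)) a p hp
      rw [e2, e3]
      refine Finset.sum_congr rfl fun i hi' => ?_
      exact hc i (Nat.lt_succ_iff.1 (Finset.mem_range.1 hi')) a ha
        ((φ i).trunc (n + M + 1)) p hp
    have h1 := hw p hp (fun i => Qf M y q φ n i M p) (fun a => E a -
      ∑ i ∈ Finset.range (M + 1), ∑ k ∈ Finset.range (M - 1),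
        c i a k p * Qf M y q φ n i (k + 1) p) (fun a ha => by
          rw [hEe a ha, Finset.sum_add_distrib]
          ring) j hj
    rw [h1]
    have e4 : ∑ i ∈ Finset.range (M + 1), ∑ k ∈ Finset.range (M - 1),
        (-∑ a ∈ Finset.range (M + 1), w j a p * c i a k p) * Qf M y q φ n i (k + 1) p =
        -∑ a ∈ Finset.range (M + 1), w j a p * ∑ i ∈ Finset.range (M + 1),
          ∑ k ∈ Finset.range (M - 1), c i a k p * Qf M y q φ n i (k + 1) p := by
      calc ∑ i ∈ Finset.range (M + 1), ∑ k ∈ Finset.range (M - 1),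
            (-∑ a ∈ Finset.range (M + 1), w j a p * c i a k p) * Qf M y q φ n i (k + 1) p
          = ∑ i ∈ Finset.range (M + 1), ∑ k ∈ Finset.range (M - 1),
              ∑ a ∈ Finset.range (M + 1), -(w j a p * (c i a k p * Qf M y q φ n i (k + 1) p)) := by
            refine Finset.sum_congr rfl fun i _ => Finset.sum_congr rfl fun k _ => ?_
            rw [Finset.sum_neg_distrib, neg_mul, Finset.sum_mul]
            simp only [mul_assoc]
        _ = ∑ i ∈ Finset.range (M + 1), ∑ a ∈ Finset.range (M + 1),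
              ∑ k ∈ Finset.range (M - 1), -(w j a p * (c i a k p * Qf M y q φ n i (k + 1) p)) :=
            Finset.sum_congr rfl fun i _ => Finset.sum_comm
        _ = ∑ a ∈ Finset.range (M + 1), ∑ i ∈ Finset.range (M + 1),
              ∑ k ∈ Finset.range (M - 1), -(w j a p * (c i a k p * Qf M y q φ n i (k + 1) p)) :=
            Finset.sum_comm
        _ = _ := by
            rw [← Finset.sum_neg_distrib]
            refine Finset.sum_congr rfl fun a _ => ?_
            rw [Finset.mul_sum, ← Finset.sum_neg_distrib]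
            refine Finset.sum_congr rfl fun i _ => ?_
            rw [Finset.mul_sum, ← Finset.sum_neg_distrib]
    rw [e4]
    simp only [mul_sub, Finset.sum_sub_distrib]
    ring

end ArL

/-- **Lemma (2.1)**: a formal relation at one point of a ball extends to the centre. -/
theorem ar_lemma {p₀ : ℂ × ℂ} {r : ℝ} {M : ℕ} (hM : 2 ≤ M) {y : ℕ → ℂ × ℂ → ℂ}
    (hy : ∀ j ≤ M, AnalyticOnNhd ℂ (y j) (ball p₀ r))
    (hJ : ∀ i j, i < j → j ≤ M → ∀ p ∈ ball p₀ r, Jac (y i) (y j) p ≠ 0)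
    {q : ℂ × ℂ} (hq : q ∈ ball p₀ r) {φ : ℕ → PowerSeries ℂ} (hφ : FRel M y q φ)
    (hne : ∃ j ≤ M, φ j ≠ 0) : ARel M y p₀ := by
  classical
  obtain ⟨w, K, E, hw, hK, hE, hmain⟩ := ar_sys hM hy hJ hq hφ
  have hle : ∀ i : Fin (M + 1), (i : ℕ) ≤ M := fun i => Nat.lt_succ_iff.1 i.2
  set N : Fin (M + 1) × Fin (M - 1) → Fin (M + 1) × Fin (M - 1) → ℂ × ℂ → ℂ := fun s s' p =>
    if (s.2 : ℕ) + 1 < M - 1 then (if s'.1 = s.1 ∧ (s'.2 : ℕ) = s.2 + 1 then 1 else 0)
    else K s.1 s'.1 s'.2 p with hN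
  have hNan : ∀ s s', AnalyticOnNhd ℂ (N s s') (ball p₀ r) := by
    intro s s' p hp
    by_cases h : (s.2 : ℕ) + 1 < M - 1
    · have e : N s s' = fun _ => if s'.1 = s.1 ∧ (s'.2 : ℕ) = s.2 + 1 then 1 else 0 := by
        funext p
        simp only [hN, if_pos h]
      rw [e]
      exact analyticAt_const
    · have e : N s s' = K s.1 s'.1 s'.2 := by
        funext p
        simp only [hN, if_neg h]
      rw [e]
      exact hK _ _ _ (hle s.1) (hle s'.1) p hp
  have hsum1 : ∀ (X : ℕ → ℕ → ℂ) (s : Fin (M + 1) × Fin (M - 1)) (p : ℂ × ℂ),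
      (s.2 : ℕ) + 1 < M - 1 → ∑ s', N s s' p * X s'.1 s'.2 = X s.1 (s.2 + 1) := by
    intro X s p h
    rw [Finset.sum_eq_single (s.1, ⟨s.2 + 1, h⟩)]
    · simp only [hN, if_pos h]
      simp
    · intro b _ hb
      simp only [hN, if_pos h]
      rw [if_neg, zero_mul]
      rintro ⟨h1, h2⟩
      exact hb (Prod.ext h1 (Fin.ext h2))
    · intro h
      exact (h (Finset.mem_univ _)).elim
  have hsum2 : ∀ (X : ℕ → ℕ → ℂ) (s : Fin (M + 1) × Fin (M - 1)) (p : ℂ × ℂ),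
      ¬ (s.2 : ℕ) + 1 < M - 1 → ∑ s', N s s' p * X s'.1 s'.2 =
        ∑ i ∈ Finset.range (M + 1), ∑ k ∈ Finset.range (M - 1), K s.1 i k p * X i k := by
    intro X s p h
    simp only [hN, if_neg h]
    rw [Fintype.sum_prod_type, Finset.sum_range]
    refine Finset.sum_congr rfl fun i _ => ?_
    rw [Finset.sum_range]
  set P : ℕ → Fin (M + 1) × Fin (M - 1) → ℂ × ℂ → ℂ :=
    fun n s => Qf M y q φ n s.1 (s.2 + 1) with hP
  have hPsum : ∀ n s, ∀ p ∈ ball p₀ r, ∑ s', N s s' p * P n s' p =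
      Qf M y q φ n s.1 (s.2 + 1 + 1) p - (if (s.2 : ℕ) + 1 < M - 1 then 0 else
        ∑ a ∈ Finset.range (M + 1), w s.1 a p * E n a p) := by
    intro n s p hp
    by_cases h : (s.2 : ℕ) + 1 < M - 1
    · rw [if_pos h, sub_zero]
      exact hsum1 (fun i k => Qf M y q φ n i (k + 1) p) s p h
    · rw [if_neg h]
      have h1 := hsum2 (fun i k => Qf M y q φ n i (k + 1) p) s p h
      have h2 := hmain n s.1 (hle s.1) p hp
      have h3 : (s.2 : ℕ) + 1 + 1 = M := by
        have := s.2.2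
        omega
      rw [h3]
      refine h1.trans ?_
      rw [h2]
      ring
  have hVv : ∀ (v : ℂ × ℂ) n s, Van (fun p => fderiv ℂ (P n s) p v -
      (∑ s', N s s' p * P n s' p) * fderiv ℂ (y s.1) p v) q n := by
    intro v n s
    have h1 : Van (fun p => fderiv ℂ (y s.1) p v * (if (s.2 : ℕ) + 1 < M - 1 then 0 else
        ∑ a ∈ Finset.range (M + 1), w s.1 a p * E n a p)) q n := by
      refine van_mul ?_ (an_fd (hy _ (hle s.1) q hq) v).continuousAt
      by_cases h : (s.2 : ℕ) + 1 < M - 1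
      · simp only [if_pos h]
        refine ⟨0, Eventually.of_forall fun p => ?_⟩
        simp
      · simp only [if_neg h]
        exact van_sum fun a ha => van_mul (van_mono (Nat.le_succ n)
          (hE n a (Nat.lt_succ_iff.1 (Finset.mem_range.1 ha)))) (hw _ a q hq).continuousAt
    refine van_congr ?_ h1
    filter_upwards [isOpen_ball.mem_nhds hq] with p hp
    rw [hPsum n s p hp]
    have h2 : fderiv ℂ (P n s) p v = Qf M y q φ n s.1 (s.2 + 1 + 1) p * fderiv ℂ (y s.1) p v :=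
      q_fd (hy _ (hle s.1) p hp) v
    rw [h2]
    ring
  obtain ⟨U, hU, hU0, hUd, hUV⟩ := sys hq hNan (y := fun s => y s.1)
    (fun s => hy _ (hle s.1)) (U₀ := fun s => (((s.2 : ℕ) + 1).descFactorial (s.2 + 1) : ℂ) *
      PowerSeries.coeff ((s.2 : ℕ) + 1) (φ s.1)) (P := P)
    (fun n s => q_an (hy _ (hle s.1) q hq)) (fun n s => q_at (by
      have := s.2.2
      omega)) (hVv (1, 0)) (hVv (0, 1))
  have hz0 : 0 < M - 1 := by omega
  have hA : ∀ v : ℂ × ℂ, ∀ p ∈ ball p₀ r,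
      ∑ i : Fin (M + 1), U (i, ⟨0, hz0⟩) p * fderiv ℂ (y i) p v = 0 := by
    intro v
    have han : AnalyticOnNhd ℂ (fun p => ∑ i : Fin (M + 1), U (i, ⟨0, hz0⟩) p *
        fderiv ℂ (y i) p v) (ball p₀ r) := fun p hp => Finset.analyticAt_fun_sum _ fun i _ =>
      (hU _ p hp).fun_mul (an_fd (hy i (hle i) p hp) v)
    have hV : ∀ n, Van (fun p => ∑ i : Fin (M + 1), U (i, ⟨0, hz0⟩) p *
        fderiv ℂ (y i) p v) q n := by
      intro n
      have g1 : Van (fun p => fderiv ℂ (fun p => ∑ j ∈ Finset.range (M + 1),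
          Qf M y q φ n j 0 p) p v) q n :=
        van_fd (phi_an hy n q hq) (van_mono (by omega) (hφ.2 (n + M))) v
      have g2 : Van (fun p => ∑ i : Fin (M + 1), fderiv ℂ (y i) p v *
          (P n (i, ⟨0, hz0⟩) p - U (i, ⟨0, hz0⟩) p)) q n :=
        van_sum fun i _ => van_mul (van_mono (Nat.le_succ n) (hUV n (i, ⟨0, hz0⟩)))
          (an_fd (hy i (hle i) q hq) v).continuousAt
      refine van_congr ?_ (van_sub g1 g2)
      filter_upwards [isOpen_ball.mem_nhds hq] with p hp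
      rw [fderiv_fun_sum fun j hj => (q_an (hy j (Nat.lt_succ_iff.1 (Finset.mem_range.1 hj))
        p hp)).differentiableAt, _root_.sum_apply, Finset.sum_range, ← Finset.sum_sub_distrib]
      refine Finset.sum_congr rfl fun i _ => ?_
      rw [q_fd (hy i (hle i) p hp) v]
      show Qf M y q φ n i 1 p * _ - _ * (Qf M y q φ n i 1 p - _) = _
      ring
    have hz := van_zero (han q hq) hV
    have h1 := han.eqOn_zero_of_preconnected_of_eventuallyEq_zero
      (convex_ball p₀ r).isPreconnected hq hz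
    exact fun p hp => h1 hp
  have hp₀ : p₀ ∈ ball p₀ r := mem_ball_self (pos_of_mem_ball hq)
  have hfo : ∀ i : Fin (M + 1), ∃ a : ℂ → ℂ, AnalyticAt ℂ a (y i p₀) ∧
      ∀ᶠ z in 𝓝 p₀, U (i, ⟨0, hz0⟩) z = a (y i z) := by
    intro i
    refine fun_of (hU _ p₀ hp₀) (hy i (hle i) p₀ hp₀) (inf_fd hM hJ (hle i) hp₀)
      (g := fun p => ∑ s', N (i, ⟨0, hz0⟩) s' p * U s' p) ?_
    filter_upwards [isOpen_ball.mem_nhds hp₀] with p hp
    exact hUd (i, ⟨0, hz0⟩) p hp
  choose a ha1 ha2 using hfo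
  refine ⟨fun j => if h : j < M + 1 then a ⟨j, h⟩ else 0, ?_, ?_, ?_⟩
  · intro j hj
    simp only [dif_pos (Nat.lt_succ_iff.2 hj)]
    exact ha1 ⟨j, Nat.lt_succ_iff.2 hj⟩
  · by_contra hcon
    push Not at hcon
    have hU1 : ∀ i : Fin (M + 1), ∀ᶠ p in 𝓝 p₀, U (i, ⟨0, hz0⟩) p = 0 := by
      intro i
      have h1 := hcon i (hle i)
      simp only [dif_pos i.2] at h1
      have h2 : ∀ᶠ p in 𝓝 p₀, a i (y i p) = 0 :=
        (hy i (hle i) p₀ hp₀).continuousAt.eventually h1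
      filter_upwards [ha2 i, h2] with p h3 h4
      rw [h3, h4]
    have hU2 : ∀ k (hk : k < M - 1), ∀ i : Fin (M + 1), ∀ᶠ p in 𝓝 p₀, U (i, ⟨k, hk⟩) p = 0 := by
      intro k
      induction k with
      | zero => exact fun hk i => hU1 i
      | succ k ih =>
        intro hk i
        have h1 := ih (Nat.lt_of_succ_lt hk) i
        filter_upwards [h1.eventually_nhds, isOpen_ball.mem_nhds hp₀] with p h2 hp
        have h3 : fderiv ℂ (U (i, ⟨k, Nat.lt_of_succ_lt hk⟩)) p = 0 := by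
          have h4 : U (i, ⟨k, Nat.lt_of_succ_lt hk⟩) =ᶠ[𝓝 p] fun _ => 0 := h2
          rw [h4.fderiv_eq]
          simp
        rw [hUd _ p hp] at h3
        have h5 := (smul_eq_zero.1 h3).resolve_right (inf_fd hM hJ (hle i) hp)
        have h6 : ∑ s', N (i, ⟨k, Nat.lt_of_succ_lt hk⟩) s' p * U s' p =
            U (i, ⟨k + 1, hk⟩) p := by
          have h7 := hsum1 (fun i k => if h : i < M + 1 ∧ k < M - 1 then
            U (⟨i, h.1⟩, ⟨k, h.2⟩) p else 0) (i, ⟨k, Nat.lt_of_succ_lt hk⟩) p hk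
          have h8 : ∀ s' : Fin (M + 1) × Fin (M - 1), ((s'.1 : ℕ) < M + 1 ∧ (s'.2 : ℕ) < M - 1) :=
            fun s' => ⟨s'.1.2, s'.2.2⟩
          simp only [dif_pos (h8 _)] at h7
          rw [dif_pos (show ((i : ℕ) < M + 1 ∧ k + 1 < M - 1) from ⟨i.2, hk⟩)] at h7
          exact h7
        rw [h6] at h5
        exact h5
    have hU3 : ∀ s, ∀ p ∈ ball p₀ r, U s p = 0 := by
      intro s
      have h1 := (hU s).eqOn_zero_of_preconnected_of_eventuallyEq_zero
        (convex_ball p₀ r).isPreconnected hp₀ (hU2 s.2 s.2.2 s.1)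
      exact fun p hp => h1 hp
    obtain ⟨j, hj, hjne⟩ := hne
    apply hjne
    have hfd : ∃ v, fderiv ℂ (y j) q v ≠ 0 := by
      by_contra hcon
      push Not at hcon
      exact inf_fd hM hJ hj hq (ContinuousLinearMap.ext hcon)
    obtain ⟨v, hv⟩ := hfd
    ext m
    rw [map_zero]
    rcases m with _ | m
    · rw [PowerSeries.coeff_zero_eq_constantCoeff_apply]
      exact hφ.1 j hj
    · have h1 := hUV m (⟨j, Nat.lt_succ_iff.2 hj⟩, ⟨0, hz0⟩)
      have h2 : Van (fun p => (Polynomial.derivative ((φ j).trunc (m + M + 1))).eval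
          (y j p - y j q)) q (m + 1) := by
        refine van_congr ?_ h1
        filter_upwards [isOpen_ball.mem_nhds hq] with p hp
        rw [hU3 _ p hp, sub_zero]
        rfl
      have h3 := co_zero (hy j hj q hq) hv m _ h2 m le_rfl
      rw [Polynomial.coeff_derivative, PowerSeries.coeff_trunc, if_pos (by omega)] at h3
      have h4 : ((m : ℂ) + 1) ≠ 0 := by exact_mod_cast Nat.succ_ne_zero m
      exact (mul_eq_zero.1 h3).resolve_right h4
  · have hall : ∀ᶠ p in 𝓝 p₀, ∀ i : Fin (M + 1), U (i, ⟨0, hz0⟩) p = a i (y i p) :=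
      eventually_all.2 ha2
    filter_upwards [hall, isOpen_ball.mem_nhds hp₀] with p h1 hp
    refine ContinuousLinearMap.ext fun v => ?_
    rw [Finset.sum_range, _root_.sum_apply]
    refine Eq.trans ?_ (hA v p hp)
    refine Finset.sum_congr rfl fun i _ => ?_
    rw [h1 i, dif_pos i.2]
    rfl

end Pool.Agent.MP_ae5b4e_an_NB1D
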