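import Mathlib
import Pool.Agent.Lib.MP_ae5b4e_an_NB1.Defs
import Pool.Agent.Lib.SCV.Osgood

/-!
# MP_ae5b4e_an, NB_1 Lemma (2.1): partial derivatives
-/

noncomputable section

namespace Pool.Agent.MP_ae5b4e_an_NB1D

open Complex Set Filter Topology Metric
open Pool.Agent.MP_ae5b4e_an_NB1 (Van FRel ARel Jac)

/-- first partial derivative -/
def D1 (f : ℂ × ℂ → ℂ) (p : ℂ × ℂ) : ℂ := fderiv ℂ f p (1, 0)

/-- second partial derivative -/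
def D2 (f : ℂ × ℂ → ℂ) (p : ℂ × ℂ) : ℂ := fderiv ℂ f p (0, 1)

theorem fderiv_eq (f : ℂ × ℂ → ℂ) (p v : ℂ × ℂ) :
    fderiv ℂ f p v = v.1 * D1 f p + v.2 * D2 f p := by
  have h : v = v.1 • ((1 : ℂ), (0 : ℂ)) + v.2 • ((0 : ℂ), (1 : ℂ)) := by
    ext <;> simp
  rw [D1, D2]
  conv_lhs => rw [h]
  rw [map_add, map_smul, map_smul, smul_eq_mul, smul_eq_mul]

theorem an_fd {f : ℂ × ℂ → ℂ} {q : ℂ × ℂ} (hf : AnalyticAt ℂ f q) (v : ℂ × ℂ) :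
    AnalyticAt ℂ (fun p => fderiv ℂ f p v) q := by
  have h := hf.fderiv
  exact (ContinuousLinearMap.analyticAt (ContinuousLinearMap.apply ℂ ℂ v) _).comp h

theorem an_D1 {f : ℂ × ℂ → ℂ} {q : ℂ × ℂ} (hf : AnalyticAt ℂ f q) : AnalyticAt ℂ (D1 f) q :=
  an_fd hf _

theorem an_D2 {f : ℂ × ℂ → ℂ} {q : ℂ × ℂ} (hf : AnalyticAt ℂ f q) : AnalyticAt ℂ (D2 f) q :=
  an_fd hf _

theorem jac_eq (f g : ℂ × ℂ → ℂ) (p : ℂ × ℂ) : Jac f g p = D1 f p * D2 g p - D1 g p * D2 f p := rfl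

end Pool.Agent.MP_ae5b4e_an_NB1D
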