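import Pool.Agent.Lib.MP_ae5b4e_an_NB1D.Defs

/-!
# MP_ae5b4e_an, NB_1 Lemma (2.1): derivatives of a polynomial in an analytic function
-/

noncomputable section

namespace Pool.Agent.MP_ae5b4e_an_NB1D

open Complex Set Filter Topology Metric Polynomial

/-- the form of the derivatives -/
private def Fm (D : Set (ℂ × ℂ)) (y : ℂ × ℂ → ℂ) (y₀ : ℂ) (n : ℕ) (e : ℂ × ℂ → ℂ)
    (g : ℂ[X] → ℂ × ℂ → ℂ) : Prop :=
  ∃ c : ℕ → ℂ × ℂ → ℂ, (∀ k, AnalyticOnNhd ℂ (c k) D) ∧
    ∀ φ : ℂ[X], ∀ p ∈ D, g φ p = (derivative^[n + 1] φ).eval (y p - y₀) * e p +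
      ∑ k ∈ Finset.range n, c k p * (derivative^[k + 1] φ).eval (y p - y₀)

private lemma Q_fd {D : Set (ℂ × ℂ)} {y : ℂ × ℂ → ℂ} (hy : AnalyticOnNhd ℂ y D) (y₀ : ℂ)
    (φ : ℂ[X]) (k : ℕ) {p : ℂ × ℂ} (hp : p ∈ D) :
    HasFDerivAt (fun q => (derivative^[k] φ).eval (y q - y₀))
      ((derivative^[k + 1] φ).eval (y p - y₀) • fderiv ℂ y p) p := by
  have h1 : HasFDerivAt (fun q => y q - y₀) (fderiv ℂ y p) p :=
    (hy p hp).differentiableAt.hasFDerivAt.sub_const y₀
  have h2 := ((derivative^[k] φ).hasDerivAt (y p - y₀)).comp_hasFDerivAt p h1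
  rw [Function.iterate_succ_apply']
  exact h2

private lemma step {D : Set (ℂ × ℂ)} (hD : IsOpen D) {y : ℂ × ℂ → ℂ} (hy : AnalyticOnNhd ℂ y D)
    (y₀ : ℂ) (v : ℂ × ℂ) {n : ℕ} {e : ℂ × ℂ → ℂ} (he : AnalyticOnNhd ℂ e D)
    {g : ℂ[X] → ℂ × ℂ → ℂ} (h : Fm D y y₀ n e g) :
    Fm D y y₀ (n + 1) (fun p => e p * fderiv ℂ y p v) (fun φ p => fderiv ℂ (g φ) p v) := by
  obtain ⟨c, hc, hg⟩ := h
  refine ⟨fun k p => (if k < n then fderiv ℂ (c k) p v else 0) +
    (if k = 0 then 0 else c (k - 1) p * fderiv ℂ y p v) +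
    (if k = n then fderiv ℂ e p v else 0), fun k p hp => ?_, fun φ p hp => ?_⟩
  · have h1 : AnalyticAt ℂ (fun p => if k < n then fderiv ℂ (c k) p v else 0) p := by
      by_cases hk : k < n
      · simp only [hk, if_true]
        exact an_fd (hc k p hp) v
      · simp only [hk, if_false]
        exact analyticAt_const
    have h2 : AnalyticAt ℂ (fun p => if k = 0 then 0 else c (k - 1) p * fderiv ℂ y p v) p := by
      by_cases hk : k = 0
      · simp only [hk, if_true]
        exact analyticAt_const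
      · simp only [hk, if_false]
        exact (hc _ p hp).mul (an_fd (hy p hp) v)
    have h3 : AnalyticAt ℂ (fun p => if k = n then fderiv ℂ e p v else 0) p := by
      by_cases hk : k = n
      · simp only [hk, if_true]
        exact an_fd (he p hp) v
      · simp only [hk, if_false]
        exact analyticAt_const
    exact (h1.add h2).add h3
  · have hev : g φ =ᶠ[𝓝 p] fun p => (derivative^[n + 1] φ).eval (y p - y₀) * e p +
        ∑ k ∈ Finset.range n, c k p * (derivative^[k + 1] φ).eval (y p - y₀) := by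
      filter_upwards [hD.mem_nhds hp] with q hq
      exact hg φ q hq
    have hQ := Q_fd hy y₀ φ (n + 1) hp
    have h1 := hQ.mul (he p hp).differentiableAt.hasFDerivAt
    have h2 : HasFDerivAt (fun p => ∑ k ∈ Finset.range n,
        c k p * (derivative^[k + 1] φ).eval (y p - y₀))
        (∑ k ∈ Finset.range n, (c k p • ((derivative^[k + 1 + 1] φ).eval (y p - y₀) • fderiv ℂ y p) +
          (derivative^[k + 1] φ).eval (y p - y₀) • fderiv ℂ (c k) p)) p :=
      HasFDerivAt.fun_sum fun k _ =>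
        (hc k p hp).differentiableAt.hasFDerivAt.mul (Q_fd hy y₀ φ (k + 1) hp)
    have h3 := (h1.add h2).congr_of_eventuallyEq hev
    beta_reduce
    rw [h3.fderiv]
    simp only [ContinuousLinearMap.add_apply, ContinuousLinearMap.smul_apply, smul_eq_mul,
      ContinuousLinearMap.sum_apply]
    have e1 : ∑ k ∈ Finset.range (n + 1), ((if k < n then fderiv ℂ (c k) p v else 0) +
        (if k = 0 then 0 else c (k - 1) p * fderiv ℂ y p v) +
        (if k = n then fderiv ℂ e p v else 0)) * (derivative^[k + 1] φ).eval (y p - y₀) =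
        ∑ k ∈ Finset.range n, fderiv ℂ (c k) p v * (derivative^[k + 1] φ).eval (y p - y₀) +
        ∑ k ∈ Finset.range n, c k p * fderiv ℂ y p v *
          (derivative^[k + 1 + 1] φ).eval (y p - y₀) +
        fderiv ℂ e p v * (derivative^[n + 1] φ).eval (y p - y₀) := by
      simp only [add_mul, Finset.sum_add_distrib]
      congr 1
      · congr 1
        · rw [Finset.sum_range_succ]
          simp only [lt_irrefl, if_false, zero_mul, add_zero]
          refine Finset.sum_congr rfl fun k hk => ?_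
          rw [if_pos (Finset.mem_range.1 hk)]
        · rw [Finset.sum_range_succ']
          simp
      · rw [Finset.sum_range_succ]
        simp only [if_true]
        have : ∑ k ∈ Finset.range n, (if k = n then fderiv ℂ e p v else 0) *
            (derivative^[k + 1] φ).eval (y p - y₀) = 0 := by
          refine Finset.sum_eq_zero fun k hk => ?_
          rw [if_neg (Finset.mem_range.1 hk).ne, zero_mul]
        rw [this, zero_add]
    rw [e1]
    have e2 : ∑ k ∈ Finset.range n, (c k p * ((derivative^[k + 1 + 1] φ).eval (y p - y₀) *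
        fderiv ℂ y p v) + (derivative^[k + 1] φ).eval (y p - y₀) * fderiv ℂ (c k) p v) =
        ∑ k ∈ Finset.range n, c k p * fderiv ℂ y p v *
          (derivative^[k + 1 + 1] φ).eval (y p - y₀) +
        ∑ k ∈ Finset.range n, fderiv ℂ (c k) p v *
          (derivative^[k + 1] φ).eval (y p - y₀) := by
      rw [← Finset.sum_add_distrib]
      refine Finset.sum_congr rfl fun k _ => ?_
      ring
    rw [e2]
    ring

private lemma base {D : Set (ℂ × ℂ)} {y : ℂ × ℂ → ℂ} (hy : AnalyticOnNhd ℂ y D)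
    (y₀ : ℂ) (v : ℂ × ℂ) :
    Fm D y y₀ 0 (fun p => fderiv ℂ y p v)
      (fun φ p => fderiv ℂ (fun p => φ.eval (y p - y₀)) p v) := by
  refine ⟨fun _ _ => 0, fun _ _ _ => analyticAt_const, fun φ p hp => ?_⟩
  have h := (Q_fd hy y₀ φ 0 hp).fderiv
  simp only [Function.iterate_zero, id_eq] at h
  beta_reduce
  rw [h]
  simp

private lemma an_pow {D : Set (ℂ × ℂ)} {y : ℂ × ℂ → ℂ} (hy : AnalyticOnNhd ℂ y D) (a b : ℕ) :
    AnalyticOnNhd ℂ (fun p => (D1 y p) ^ a * (D2 y p) ^ b) D := fun p hp =>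
  ((an_D1 (hy p hp)).pow a).mul ((an_D2 (hy p hp)).pow b)

/-- All partial derivatives of `φ (y - y₀)`: the highest derivative of `φ` comes with the product
of the first derivatives of `y`, the other coefficients do not depend on `φ`. -/
theorem faa {D : Set (ℂ × ℂ)} (hD : IsOpen D) {y : ℂ × ℂ → ℂ} (hy : AnalyticOnNhd ℂ y D) (y₀ : ℂ)
    (a b : ℕ) (hab : 1 ≤ a + b) : ∃ c : ℕ → ℂ × ℂ → ℂ, (∀ k, AnalyticOnNhd ℂ (c k) D) ∧
      ∀ φ : ℂ[X], ∀ p ∈ D, (D1^[a] (D2^[b] fun p => φ.eval (y p - y₀))) p =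
        (derivative^[a + b] φ).eval (y p - y₀) * ((D1 y p) ^ a * (D2 y p) ^ b) +
        ∑ k ∈ Finset.range (a + b - 1), c k p * (derivative^[k + 1] φ).eval (y p - y₀) := by
  -- the case `a = 0`
  have hB : ∀ b : ℕ, Fm D y y₀ b (fun p => (D1 y p) ^ 0 * (D2 y p) ^ (b + 1))
      (fun φ => D2^[b + 1] fun p => φ.eval (y p - y₀)) := by
    intro b
    induction b with
    | zero =>
      have h := base hy y₀ ((0 : ℂ), (1 : ℂ))
      have e : (fun p => (D1 y p) ^ 0 * (D2 y p) ^ (0 + 1)) =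
          fun p => fderiv ℂ y p ((0 : ℂ), (1 : ℂ)) := by
        funext p
        rw [pow_zero, one_mul, zero_add, pow_one]
        rfl
      rw [e]
      exact h
    | succ b ih =>
      have h := step hD hy y₀ ((0 : ℂ), (1 : ℂ)) (an_pow hy 0 (b + 1)) ih
      have e : (fun p => (D1 y p) ^ 0 * (D2 y p) ^ (b + 1 + 1)) =
          fun p => (D1 y p) ^ 0 * (D2 y p) ^ (b + 1) * fderiv ℂ y p ((0 : ℂ), (1 : ℂ)) := by
        funext p
        rw [pow_succ (D2 y p) (b + 1), ← mul_assoc]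
        rfl
      rw [e]
      have e' : (fun φ : ℂ[X] => D2^[b + 1 + 1] fun p => φ.eval (y p - y₀)) =
          fun φ p => fderiv ℂ (D2^[b + 1] fun p => φ.eval (y p - y₀)) p ((0 : ℂ), (1 : ℂ)) := by
        funext φ
        rw [Function.iterate_succ_apply']
        rfl
      rw [e']
      exact h
  have hA : ∀ a b : ℕ, Fm D y y₀ (a + b) (fun p => (D1 y p) ^ a * (D2 y p) ^ (b + 1))
      (fun φ => D1^[a] (D2^[b + 1] fun p => φ.eval (y p - y₀))) := by
    intro a b
    induction a with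
    | zero =>
      rw [zero_add]
      exact hB b
    | succ a ih =>
      have h := step hD hy y₀ ((1 : ℂ), (0 : ℂ)) (an_pow hy a (b + 1)) ih
      have e : (fun p => (D1 y p) ^ (a + 1) * (D2 y p) ^ (b + 1)) =
          fun p => (D1 y p) ^ a * (D2 y p) ^ (b + 1) * fderiv ℂ y p ((1 : ℂ), (0 : ℂ)) := by
        funext p
        rw [pow_succ (D1 y p) a]
        show D1 y p ^ a * D1 y p * D2 y p ^ (b + 1) = D1 y p ^ a * D2 y p ^ (b + 1) * D1 y p
        ring
      rw [e, show a + 1 + b = a + b + 1 by ring]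
      have e' : (fun φ : ℂ[X] => D1^[a + 1] (D2^[b + 1] fun p => φ.eval (y p - y₀))) =
          fun φ p => fderiv ℂ (D1^[a] (D2^[b + 1] fun p => φ.eval (y p - y₀))) p
            ((1 : ℂ), (0 : ℂ)) := by
        funext φ
        rw [Function.iterate_succ_apply']
        rfl
      rw [e']
      exact h
  have hC : ∀ a : ℕ, Fm D y y₀ a (fun p => (D1 y p) ^ (a + 1) * (D2 y p) ^ 0)
      (fun φ => D1^[a + 1] (D2^[0] fun p => φ.eval (y p - y₀))) := by
    intro a
    induction a with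
    | zero =>
      have h := base hy y₀ ((1 : ℂ), (0 : ℂ))
      have e : (fun p => (D1 y p) ^ (0 + 1) * (D2 y p) ^ 0) =
          fun p => fderiv ℂ y p ((1 : ℂ), (0 : ℂ)) := by
        funext p
        rw [pow_zero, mul_one, zero_add, pow_one]
        rfl
      rw [e]
      exact h
    | succ a ih =>
      have h := step hD hy y₀ ((1 : ℂ), (0 : ℂ)) (an_pow hy (a + 1) 0) ih
      have e : (fun p => (D1 y p) ^ (a + 1 + 1) * (D2 y p) ^ 0) =
          fun p => (D1 y p) ^ (a + 1) * (D2 y p) ^ 0 * fderiv ℂ y p ((1 : ℂ), (0 : ℂ)) := by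
        funext p
        rw [pow_succ (D1 y p) (a + 1)]
        show D1 y p ^ (a + 1) * D1 y p * D2 y p ^ 0 = D1 y p ^ (a + 1) * D2 y p ^ 0 * D1 y p
        ring
      rw [e]
      have e' : (fun φ : ℂ[X] => D1^[a + 1 + 1] (D2^[0] fun p => φ.eval (y p - y₀))) =
          fun φ p => fderiv ℂ (D1^[a + 1] (D2^[0] fun p => φ.eval (y p - y₀))) p
            ((1 : ℂ), (0 : ℂ)) := by
        funext φ
        rw [Function.iterate_succ_apply' (f := D1) (n := a + 1)]
        rfl
      rw [e']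
      exact h
  rcases Nat.eq_zero_or_pos b with rfl | hb
  · obtain ⟨a, rfl⟩ : ∃ a', a = a' + 1 := ⟨a - 1, by omega⟩
    obtain ⟨c, hc, h⟩ := hC a
    refine ⟨c, hc, fun φ p hp => ?_⟩
    rw [add_zero, Nat.add_sub_cancel]
    exact h φ p hp
  · obtain ⟨b, rfl⟩ : ∃ b', b = b' + 1 := ⟨b - 1, by omega⟩
    obtain ⟨c, hc, h⟩ := hA a b
    refine ⟨c, hc, fun φ p hp => ?_⟩
    rw [← add_assoc, Nat.add_sub_cancel]
    exact h φ p hp

end Pool.Agent.MP_ae5b4e_an_NB1D
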