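import Pool.Agent.Lib.MP_ae5b4e_an_NB1D.Defs

/-!
# MP_ae5b4e_an, NB_1 Lemma (2.1): linear radial differential equation on a ball
-/

noncomputable section

namespace Pool.Agent.MP_ae5b4e_an_NB1D

open Complex Set Filter Topology Metric MeasureTheory

section RadO

variable {p₀ q : ℂ × ℂ} {r : ℝ}

/-- the point of the segment -/
private def gm (q : ℂ × ℂ) (p : ℂ × ℂ) (t : ℝ) : ℂ × ℂ := q + (t : ℂ) • (p - q)

private lemma gm_cont (q p : ℂ × ℂ) : Continuous (gm q p) := by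
  unfold gm
  fun_prop

private lemma gm_dist (q p : ℂ × ℂ) {t : ℝ} (ht : 0 ≤ t) : dist (gm q p t) q = t * dist p q := by
  rw [gm, dist_eq_norm, add_sub_cancel_left, norm_smul, Complex.norm_real, Real.norm_eq_abs,
    abs_of_nonneg ht, dist_eq_norm]

private lemma gm_eq (q p : ℂ × ℂ) (t : ℝ) : gm q p t = (1 - t) • q + t • p := by
  unfold gm
  ext <;> simp <;> ring

private lemma gm_mem {S : Set (ℂ × ℂ)} (hS : Convex ℝ S) (hq : q ∈ S) {p : ℂ × ℂ} (hp : p ∈ S)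
    {t : ℝ} (ht : t ∈ Icc (0:ℝ) 1) : gm q p t ∈ S := by
  rw [gm_eq]
  exact hS hq hp (by linarith [ht.2]) ht.1 (by ring)

/-- the radial mean -/
private def Jr (q : ℂ × ℂ) (h : ℂ × ℂ → ℂ) (p : ℂ × ℂ) : ℂ := ∫ t in (0:ℝ)..1, h (gm q p t)

private lemma jr_cont {h : ℂ × ℂ → ℂ} (hh : ContinuousOn h (ball p₀ r)) (hq : q ∈ ball p₀ r)
    {p : ℂ × ℂ} (hp : p ∈ ball p₀ r) : ContinuousOn (fun t : ℝ => h (gm q p t)) (Icc 0 1) :=
  hh.comp (gm_cont q p).continuousOn fun _ ht => gm_mem (convex_ball p₀ r) hq hp ht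

private lemma jr_int {h : ℂ × ℂ → ℂ} (hh : ContinuousOn h (ball p₀ r)) (hq : q ∈ ball p₀ r)
    {p : ℂ × ℂ} (hp : p ∈ ball p₀ r) :
    IntervalIntegrable (fun t : ℝ => h (gm q p t)) volume 0 1 := by
  rw [intervalIntegrable_iff_integrableOn_Icc_of_le zero_le_one]
  exact (jr_cont hh hq hp).integrableOn_Icc

private lemma jr_diff {h : ℂ × ℂ → ℂ} (hh : AnalyticOnNhd ℂ h (ball p₀ r)) (hq : q ∈ ball p₀ r) :
    DifferentiableOn ℂ (Jr q h) (ball p₀ r) := by
  intro p1 hp1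
  refine DifferentiableAt.differentiableWithinAt ?_
  obtain ⟨e, he, hsub⟩ := Metric.nhds_basis_closedBall.mem_iff.1 (isOpen_ball.mem_nhds hp1)
  have hLc : Continuous fun z : (ℂ × ℂ) × ℝ => gm q z.1 z.2 := by
    unfold gm
    fun_prop
  have hK : IsCompact ((fun z : (ℂ × ℂ) × ℝ => gm q z.1 z.2) ''
      (Metric.closedBall p1 e ×ˢ Icc (0:ℝ) 1)) :=
    ((isCompact_closedBall p1 e).prod isCompact_Icc).image hLc
  have hKsub : ((fun z : (ℂ × ℂ) × ℝ => gm q z.1 z.2) ''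
      (Metric.closedBall p1 e ×ˢ Icc (0:ℝ) 1)) ⊆ ball p₀ r := by
    rintro _ ⟨⟨p, x⟩, ⟨hp, hx⟩, rfl⟩
    exact gm_mem (convex_ball p₀ r) hq (hsub hp) hx
  have hfd : ContinuousOn (fderiv ℂ h) (ball p₀ r) := hh.fderiv.continuousOn
  obtain ⟨C, hC⟩ := hK.exists_bound_of_continuousOn (hfd.mono hKsub)
  have hI : uIoc (0:ℝ) 1 = Ioc 0 1 := uIoc_of_le zero_le_one
  have h := intervalIntegral.hasFDerivAt_integral_of_dominated_of_fderiv_le (𝕜 := ℂ)
    (μ := volume) (a := 0) (b := 1) (bound := fun _ => C)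
    (F := fun (p : ℂ × ℂ) (x : ℝ) => h (gm q p x))
    (F' := fun (p : ℂ × ℂ) (x : ℝ) => (x : ℂ) • fderiv ℂ h (gm q p x))
    (x₀ := p1) (s := Metric.closedBall p1 e) (Metric.closedBall_mem_nhds p1 he) ?_ ?_ ?_ ?_ ?_ ?_
  · exact h.differentiableAt
  · filter_upwards [Metric.closedBall_mem_nhds p1 he] with p hp
    rw [hI]
    exact ((jr_cont hh.continuousOn hq (hsub hp)).mono Ioc_subset_Icc_self).aestronglyMeasurable
      measurableSet_Ioc
  · exact jr_int hh.continuousOn hq hp1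
  · rw [hI]
    refine ContinuousOn.aestronglyMeasurable ?_ measurableSet_Ioc
    have hx2 : ContinuousOn (fun x : ℝ => (x : ℂ)) (Ioc 0 1) := by fun_prop
    refine hx2.smul ?_
    exact hfd.comp (gm_cont q p1).continuousOn
      fun x hx => gm_mem (convex_ball p₀ r) hq hp1 (Ioc_subset_Icc_self hx)
  · refine Eventually.of_forall fun x hx p hp => ?_
    rw [hI] at hx
    have hx' := Ioc_subset_Icc_self hx
    have hC' := hC (gm q p x) ⟨(p, x), ⟨hp, hx'⟩, rfl⟩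
    have hC0 : 0 ≤ C := (norm_nonneg _).trans hC'
    rw [norm_smul, Complex.norm_real, Real.norm_eq_abs, abs_of_nonneg hx'.1]
    calc x * ‖fderiv ℂ h (gm q p x)‖ ≤ 1 * C :=
          mul_le_mul hx'.2 hC' (norm_nonneg _) zero_le_one
      _ = C := one_mul C
  · exact intervalIntegrable_const
  · refine Eventually.of_forall fun x hx p hp => ?_
    rw [hI] at hx
    have hx' := Ioc_subset_Icc_self hx
    have h1 : HasFDerivAt h (fderiv ℂ h (gm q p x)) (gm q p x) :=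
      (hh _ (gm_mem (convex_ball p₀ r) hq (hsub hp) hx')).differentiableAt.hasFDerivAt
    have h2 : HasFDerivAt (fun p : ℂ × ℂ => gm q p x)
        ((x : ℂ) • ContinuousLinearMap.id ℂ (ℂ × ℂ)) p := by
      unfold gm
      exact (((hasFDerivAt_id p).sub_const q).const_smul (x : ℂ)).const_add q
    have h3 := h1.comp p h2
    refine h3.congr_fderiv ?_
    ext <;> simp

private lemma jr_an {h : ℂ × ℂ → ℂ} (hh : AnalyticOnNhd ℂ h (ball p₀ r)) (hq : q ∈ ball p₀ r) :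
    AnalyticOnNhd ℂ (Jr q h) (ball p₀ r) :=
  Pool.Agent.SCV.differentiableOn_analyticOnNhd _ isOpen_ball _ (jr_diff hh hq)

variable {ι : Type} [Fintype ι] {N : ι → ι → ℂ × ℂ → ℂ} {y : ι → ℂ × ℂ → ℂ}

/-- the integrands -/
private def H1 (N : ι → ι → ℂ × ℂ → ℂ) (y : ι → ℂ × ℂ → ℂ) (U : ι → ℂ × ℂ → ℂ) (s : ι)
    (z : ℂ × ℂ) : ℂ := (∑ s', N s s' z * U s' z) * D1 (y s) z

private def H2 (N : ι → ι → ℂ × ℂ → ℂ) (y : ι → ℂ × ℂ → ℂ) (U : ι → ℂ × ℂ → ℂ) (s : ι)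
    (z : ℂ × ℂ) : ℂ := (∑ s', N s s' z * U s' z) * D2 (y s) z

/-- the integral operator -/
private def Tl (q : ℂ × ℂ) (N : ι → ι → ℂ × ℂ → ℂ) (y : ι → ℂ × ℂ → ℂ) (U : ι → ℂ × ℂ → ℂ) (s : ι)
    (p : ℂ × ℂ) : ℂ := (p - q).1 * Jr q (H1 N y U s) p + (p - q).2 * Jr q (H2 N y U s) p

private lemma h1_an (hN : ∀ s s', AnalyticOnNhd ℂ (N s s') (ball p₀ r))
    (hy : ∀ s, AnalyticOnNhd ℂ (y s) (ball p₀ r)) {U : ι → ℂ × ℂ → ℂ}
    (hU : ∀ s, AnalyticOnNhd ℂ (U s) (ball p₀ r)) (s : ι) :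
    AnalyticOnNhd ℂ (H1 N y U s) (ball p₀ r) := by
  intro z hz
  unfold H1
  exact (Finset.analyticAt_fun_sum _ fun s' _ => (hN s s' z hz).fun_mul (hU s' z hz)).fun_mul
    (an_D1 (hy s z hz))

private lemma h2_an (hN : ∀ s s', AnalyticOnNhd ℂ (N s s') (ball p₀ r))
    (hy : ∀ s, AnalyticOnNhd ℂ (y s) (ball p₀ r)) {U : ι → ℂ × ℂ → ℂ}
    (hU : ∀ s, AnalyticOnNhd ℂ (U s) (ball p₀ r)) (s : ι) :
    AnalyticOnNhd ℂ (H2 N y U s) (ball p₀ r) := by
  intro z hz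
  unfold H2
  exact (Finset.analyticAt_fun_sum _ fun s' _ => (hN s s' z hz).fun_mul (hU s' z hz)).fun_mul
    (an_D2 (hy s z hz))

private lemma tl_an (hq : q ∈ ball p₀ r) (hN : ∀ s s', AnalyticOnNhd ℂ (N s s') (ball p₀ r))
    (hy : ∀ s, AnalyticOnNhd ℂ (y s) (ball p₀ r)) {U : ι → ℂ × ℂ → ℂ}
    (hU : ∀ s, AnalyticOnNhd ℂ (U s) (ball p₀ r)) (s : ι) :
    AnalyticOnNhd ℂ (Tl q N y U s) (ball p₀ r) := by
  intro z hz
  have a1 : AnalyticAt ℂ (fun p : ℂ × ℂ => (p - q).1) z := by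
    have : (fun p : ℂ × ℂ => (p - q).1) = fun p => p.1 - q.1 := rfl
    rw [this]
    exact analyticAt_fst.fun_sub analyticAt_const
  have a2 : AnalyticAt ℂ (fun p : ℂ × ℂ => (p - q).2) z := by
    have : (fun p : ℂ × ℂ => (p - q).2) = fun p => p.2 - q.2 := rfl
    rw [this]
    exact analyticAt_snd.fun_sub analyticAt_const
  exact (a1.fun_mul (jr_an (h1_an hN hy hU s) hq z hz)).fun_add
    (a2.fun_mul (jr_an (h2_an hN hy hU s) hq z hz))

/-- the iterates -/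
private def uu (q : ℂ × ℂ) (N : ι → ι → ℂ × ℂ → ℂ) (y : ι → ℂ × ℂ → ℂ) (U₀ : ι → ℂ) :
    ℕ → ι → ℂ × ℂ → ℂ
  | 0, s, _ => U₀ s
  | n + 1, s, p => U₀ s + Tl q N y (uu q N y U₀ n) s p

private lemma uu_an (hq : q ∈ ball p₀ r) (hN : ∀ s s', AnalyticOnNhd ℂ (N s s') (ball p₀ r))
    (hy : ∀ s, AnalyticOnNhd ℂ (y s) (ball p₀ r)) (U₀ : ι → ℂ) (n : ℕ) (s : ι) :
    AnalyticOnNhd ℂ (uu q N y U₀ n s) (ball p₀ r) := by
  induction n generalizing s with
  | zero => exact fun z _ => analyticAt_const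
  | succ n ih =>
    intro z hz
    exact analyticAt_const.fun_add (tl_an hq hN hy ih s z hz)

private lemma norm_fst_le' (p q : ℂ × ℂ) : ‖(p - q).1‖ ≤ dist p q := by
  rw [dist_eq_norm]
  exact norm_fst_le _

private lemma norm_snd_le' (p q : ℂ × ℂ) : ‖(p - q).2‖ ≤ dist p q := by
  rw [dist_eq_norm]
  exact norm_snd_le _

/-- difference of the operator -/
private lemma tl_sub (hq : q ∈ ball p₀ r) (hN : ∀ s s', AnalyticOnNhd ℂ (N s s') (ball p₀ r))
    (hy : ∀ s, AnalyticOnNhd ℂ (y s) (ball p₀ r)) {U V : ι → ℂ × ℂ → ℂ}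
    (hU : ∀ s, AnalyticOnNhd ℂ (U s) (ball p₀ r)) (hV : ∀ s, AnalyticOnNhd ℂ (V s) (ball p₀ r))
    (s : ι) {p : ℂ × ℂ} (hp : p ∈ ball p₀ r) :
    Tl q N y U s p - Tl q N y V s p = Tl q N y (fun s z => U s z - V s z) s p := by
  have e1 : Jr q (H1 N y U s) p - Jr q (H1 N y V s) p =
      Jr q (H1 N y (fun s z => U s z - V s z) s) p := by
    unfold Jr
    rw [← intervalIntegral.integral_sub (jr_int (h1_an hN hy hU s).continuousOn hq hp)
      (jr_int (h1_an hN hy hV s).continuousOn hq hp)]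
    refine intervalIntegral.integral_congr fun t _ => ?_
    simp only [H1, mul_sub, Finset.sum_sub_distrib, sub_mul]
  have e2 : Jr q (H2 N y U s) p - Jr q (H2 N y V s) p =
      Jr q (H2 N y (fun s z => U s z - V s z) s) p := by
    unfold Jr
    rw [← intervalIntegral.integral_sub (jr_int (h2_an hN hy hU s).continuousOn hq hp)
      (jr_int (h2_an hN hy hV s).continuousOn hq hp)]
    refine intervalIntegral.integral_congr fun t _ => ?_
    simp only [H2, mul_sub, Finset.sum_sub_distrib, sub_mul]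
  unfold Tl
  rw [← e1, ← e2]
  ring

/-- the estimate of one step -/
private lemma tl_bd {K : Set (ℂ × ℂ)} (hK : Convex ℝ K) (hqK : q ∈ K) {A : ℝ} (hA : 0 ≤ A)
    (hNA : ∀ s s', ∀ z ∈ K, ‖N s s' z‖ ≤ A) (h1A : ∀ s, ∀ z ∈ K, ‖D1 (y s) z‖ ≤ A)
    (h2A : ∀ s, ∀ z ∈ K, ‖D2 (y s) z‖ ≤ A) {U : ι → ℂ × ℂ → ℂ} {C : ℝ} (hC : 0 ≤ C) {n : ℕ}
    (hU : ∀ s, ∀ z ∈ K, ‖U s z‖ ≤ C * dist z q ^ n) (s : ι) {p : ℂ × ℂ} (hp : p ∈ K) :
    ‖Tl q N y U s p‖ ≤ 2 * (Fintype.card ι) * A ^ 2 * C / (n + 1) * dist p q ^ (n + 1) := by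
  have hsum : ∀ z ∈ K, ‖∑ s', N s s' z * U s' z‖ ≤
      (Fintype.card ι) * (A * (C * dist z q ^ n)) := by
    intro z hz
    refine (norm_sum_le _ _).trans ?_
    have h := Finset.sum_le_card_nsmul (Finset.univ : Finset ι) (fun s' => ‖N s s' z * U s' z‖)
      (A * (C * dist z q ^ n)) (fun s' _ => by
        rw [norm_mul]
        exact mul_le_mul (hNA s s' z hz) (hU s' z hz) (norm_nonneg _) hA)
    rw [nsmul_eq_mul, Finset.card_univ] at h
    exact h
  have key : ∀ H : ℂ × ℂ → ℂ, (∀ z ∈ K, ‖H z‖ ≤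
      (Fintype.card ι) * (A * (C * dist z q ^ n)) * A) →
      ‖Jr q H p‖ ≤ (Fintype.card ι) * A ^ 2 * C / (n + 1) * dist p q ^ n := by
    intro H hH
    have h1 : ‖Jr q H p‖ ≤ ∫ t in (0:ℝ)..1, ((Fintype.card ι) * A ^ 2 * C * dist p q ^ n) * t ^ n := by
      refine intervalIntegral.norm_integral_le_of_norm_le zero_le_one ?_ ?_
      · refine Eventually.of_forall fun t ht => ?_
        have ht' : t ∈ Icc (0:ℝ) 1 := Ioc_subset_Icc_self ht
        refine (hH _ (gm_mem hK hqK hp ht')).trans (le_of_eq ?_)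
        rw [gm_dist q p ht'.1, mul_pow]
        ring
      · exact (by fun_prop : Continuous fun t : ℝ =>
          ((Fintype.card ι) * A ^ 2 * C * dist p q ^ n) * t ^ n).intervalIntegrable _ _
    refine h1.trans (le_of_eq ?_)
    rw [intervalIntegral.integral_const_mul, integral_pow]
    simp
    ring
  have hd : 0 ≤ dist p q := dist_nonneg
  have g1 := key (H1 N y U s) (fun z hz => by
    unfold H1
    rw [norm_mul]
    exact mul_le_mul (hsum z hz) (h1A s z hz) (norm_nonneg _) (by positivity))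
  have g2 := key (H2 N y U s) (fun z hz => by
    unfold H2
    rw [norm_mul]
    exact mul_le_mul (hsum z hz) (h2A s z hz) (norm_nonneg _) (by positivity))
  unfold Tl
  refine (norm_add_le _ _).trans ?_
  rw [norm_mul, norm_mul]
  have k1 := mul_le_mul (norm_fst_le' p q) g1 (norm_nonneg _) hd
  have k2 := mul_le_mul (norm_snd_le' p q) g2 (norm_nonneg _) hd
  refine (add_le_add k1 k2).trans (le_of_eq ?_)
  ring

/-- the bounds on smaller balls -/
private lemma exists_bd (hN : ∀ s s', AnalyticOnNhd ℂ (N s s') (ball p₀ r))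
    (hy : ∀ s, AnalyticOnNhd ℂ (y s) (ball p₀ r)) {r' : ℝ} (hr : r' < r) :
    ∃ A : ℝ, 0 ≤ A ∧ (∀ s s', ∀ z ∈ closedBall p₀ r', ‖N s s' z‖ ≤ A) ∧
      (∀ s, ∀ z ∈ closedBall p₀ r', ‖D1 (y s) z‖ ≤ A) ∧
      ∀ s, ∀ z ∈ closedBall p₀ r', ‖D2 (y s) z‖ ≤ A := by
  have hsub : closedBall p₀ r' ⊆ ball p₀ r := closedBall_subset_ball hr
  have hK : IsCompact (closedBall p₀ r') := isCompact_closedBall p₀ r'
  have b0 : ∀ s s', ∃ C : ℝ, ∀ z ∈ closedBall p₀ r', ‖N s s' z‖ ≤ C := fun s s' =>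
    hK.exists_bound_of_continuousOn ((hN s s').continuousOn.mono hsub)
  have b1 : ∀ s, ∃ C : ℝ, ∀ z ∈ closedBall p₀ r', ‖D1 (y s) z‖ ≤ C := fun s =>
    hK.exists_bound_of_continuousOn fun z hz =>
      (an_D1 (hy s z (hsub hz))).continuousAt.continuousWithinAt
  have b2 : ∀ s, ∃ C : ℝ, ∀ z ∈ closedBall p₀ r', ‖D2 (y s) z‖ ≤ C := fun s =>
    hK.exists_bound_of_continuousOn fun z hz =>
      (an_D2 (hy s z (hsub hz))).continuousAt.continuousWithinAt
  choose C0 hC0 using b0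
  choose C1 hC1 using b1
  choose C2 hC2 using b2
  refine ⟨(∑ s, ∑ s', |C0 s s'|) + (∑ s, |C1 s|) + ∑ s, |C2 s|, by positivity, ?_, ?_, ?_⟩
  · intro s s' z hz
    have h1 : |C0 s s'| ≤ ∑ s', |C0 s s'| :=
      Finset.single_le_sum (f := fun s' => |C0 s s'|) (fun _ _ => abs_nonneg _) (Finset.mem_univ s')
    have h2 : ∑ s', |C0 s s'| ≤ ∑ s, ∑ s', |C0 s s'| :=
      Finset.single_le_sum (f := fun s => ∑ s', |C0 s s'|)
        (fun _ _ => Finset.sum_nonneg fun _ _ => abs_nonneg _) (Finset.mem_univ s)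
    have h3 : 0 ≤ ∑ s, |C1 s| := Finset.sum_nonneg fun _ _ => abs_nonneg _
    have h4 : 0 ≤ ∑ s, |C2 s| := Finset.sum_nonneg fun _ _ => abs_nonneg _
    linarith [hC0 s s' z hz, le_abs_self (C0 s s')]
  · intro s z hz
    have h1 : |C1 s| ≤ ∑ s, |C1 s| :=
      Finset.single_le_sum (f := fun s => |C1 s|) (fun _ _ => abs_nonneg _) (Finset.mem_univ s)
    have h3 : 0 ≤ ∑ s, ∑ s', |C0 s s'| :=
      Finset.sum_nonneg fun _ _ => Finset.sum_nonneg fun _ _ => abs_nonneg _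
    have h4 : 0 ≤ ∑ s, |C2 s| := Finset.sum_nonneg fun _ _ => abs_nonneg _
    linarith [hC1 s z hz, le_abs_self (C1 s)]
  · intro s z hz
    have h1 : |C2 s| ≤ ∑ s, |C2 s| :=
      Finset.single_le_sum (f := fun s => |C2 s|) (fun _ _ => abs_nonneg _) (Finset.mem_univ s)
    have h3 : 0 ≤ ∑ s, ∑ s', |C0 s s'| :=
      Finset.sum_nonneg fun _ _ => Finset.sum_nonneg fun _ _ => abs_nonneg _
    have h4 : 0 ≤ ∑ s, |C1 s| := Finset.sum_nonneg fun _ _ => abs_nonneg _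
    linarith [hC2 s z hz, le_abs_self (C2 s)]

/-- the bound of the increments on smaller balls -/
private lemma inc_bd (hq : q ∈ ball p₀ r) (hN : ∀ s s', AnalyticOnNhd ℂ (N s s') (ball p₀ r))
    (hy : ∀ s, AnalyticOnNhd ℂ (y s) (ball p₀ r)) (U₀ : ι → ℂ) {r' : ℝ} (hr : r' < r)
    (hqr : q ∈ closedBall p₀ r') :
    ∃ a : ℕ → ℝ, Summable a ∧ ∀ n s, ∀ z ∈ closedBall p₀ r',
      ‖uu q N y U₀ (n + 1) s z - uu q N y U₀ n s z‖ ≤ a n := by
  obtain ⟨A, hA, hNA, h1A, h2A⟩ := exists_bd hN hy hr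
  have hsub : closedBall p₀ r' ⊆ ball p₀ r := closedBall_subset_ball hr
  set L : ℝ := 2 * (Fintype.card ι) * A ^ 2 with hL
  have hL0 : 0 ≤ L := by positivity
  set C : ℝ := L * ∑ s, ‖U₀ s‖ with hC
  have hC0 : 0 ≤ C := mul_nonneg hL0 (Finset.sum_nonneg fun _ _ => norm_nonneg _)
  clear_value L C
  have key : ∀ n s, ∀ z ∈ closedBall p₀ r', ‖uu q N y U₀ (n + 1) s z - uu q N y U₀ n s z‖ ≤
      C * L ^ n / (n + 1).factorial * dist z q ^ (n + 1) := by
    intro n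
    induction n with
    | zero =>
      intro s z hz
      have h := tl_bd (U := fun s _ => U₀ s) (convex_closedBall p₀ r') hqr hA hNA h1A h2A
        (C := ∑ s, ‖U₀ s‖) (n := 0) (Finset.sum_nonneg fun _ _ => norm_nonneg _) (fun s z _ => by
          rw [pow_zero, mul_one]
          exact Finset.single_le_sum (f := fun s => ‖U₀ s‖) (fun _ _ => norm_nonneg _)
            (Finset.mem_univ s)) s hz
      have e : uu q N y U₀ (0 + 1) s z - uu q N y U₀ 0 s z = Tl q N y (fun s _ => U₀ s) s z := by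
        change U₀ s + Tl q N y (uu q N y U₀ 0) s z - U₀ s = _
        rw [add_sub_cancel_left]
        rfl
      rw [e]
      refine h.trans (le_of_eq ?_)
      rw [hC, hL]
      simp
    | succ n ih =>
      intro s z hz
      have h := tl_bd (U := fun s z => uu q N y U₀ (n + 1) s z - uu q N y U₀ n s z)
        (convex_closedBall p₀ r') hqr hA hNA h1A h2A
        (C := C * L ^ n / (n + 1).factorial) (n := n + 1) (by positivity) ih s hz
      have e : uu q N y U₀ (n + 1 + 1) s z - uu q N y U₀ (n + 1) s z =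
          Tl q N y (fun s z => uu q N y U₀ (n + 1) s z - uu q N y U₀ n s z) s z := by
        change (U₀ s + Tl q N y (uu q N y U₀ (n + 1)) s z) - (U₀ s + Tl q N y (uu q N y U₀ n) s z) = _
        rw [add_sub_add_left_eq_sub]
        exact tl_sub hq hN hy (uu_an hq hN hy U₀ (n + 1)) (uu_an hq hN hy U₀ n) s (hsub hz)
      rw [e]
      refine h.trans (le_of_eq ?_)
      rw [← hL]
      have hf : ((n + 1 + 1).factorial : ℝ) = ((n : ℝ) + 1 + 1) * ((n + 1).factorial : ℝ) := by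
        rw [Nat.factorial_succ (n + 1)]
        push_cast
        ring
      have hf0 : ((n + 1).factorial : ℝ) ≠ 0 := by positivity
      have hn0 : ((n : ℝ) + 1 + 1) ≠ 0 := by positivity
      rw [hf]
      push_cast
      field_simp
      ring
  refine ⟨fun n => C * L ^ n / (n + 1).factorial * (2 * r') ^ (n + 1), ?_, ?_⟩
  · have h0 : Summable fun n : ℕ => (L * (2 * |r'|)) ^ n / (n.factorial : ℝ) :=
      Real.summable_pow_div_factorial _
    refine Summable.of_norm_bounded (h0.mul_left (C * (2 * |r'|))) fun n => ?_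
    rw [norm_mul, norm_div, norm_mul, norm_pow, norm_pow, Real.norm_of_nonneg hC0,
      Real.norm_of_nonneg hL0, Real.norm_of_nonneg (by positivity : (0:ℝ) ≤ (n + 1).factorial),
      norm_mul, Real.norm_of_nonneg (by norm_num : (0:ℝ) ≤ 2), Real.norm_eq_abs]
    have hle : (n.factorial : ℝ) ≤ (n + 1).factorial := by
      exact_mod_cast Nat.factorial_le (Nat.le_succ n)
    have h1 : C * L ^ n / ((n + 1).factorial : ℝ) ≤ C * L ^ n / (n.factorial : ℝ) :=
      div_le_div_of_nonneg_left (by positivity) (by positivity) hle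
    calc C * L ^ n / ((n + 1).factorial : ℝ) * (2 * |r'|) ^ (n + 1)
        ≤ C * L ^ n / (n.factorial : ℝ) * (2 * |r'|) ^ (n + 1) :=
          mul_le_mul_of_nonneg_right h1 (by positivity)
      _ = C * (2 * |r'|) * ((L * (2 * |r'|)) ^ n / (n.factorial : ℝ)) := by
          rw [mul_pow L, pow_succ (2 * |r'|)]
          ring
  · intro n s z hz
    refine (key n s z hz).trans ?_
    refine mul_le_mul_of_nonneg_left ?_ (by positivity)
    refine pow_le_pow_left₀ dist_nonneg ?_ _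
    have h1 : dist z p₀ ≤ r' := hz
    have h2 : dist q p₀ ≤ r' := hqr
    calc dist z q ≤ dist z p₀ + dist p₀ q := dist_triangle _ _ _
      _ ≤ r' + r' := by rw [dist_comm p₀ q]; exact add_le_add h1 h2
      _ = 2 * r' := by ring

/-- the limit -/
private def UL (q : ℂ × ℂ) (N : ι → ι → ℂ × ℂ → ℂ) (y : ι → ℂ × ℂ → ℂ) (U₀ : ι → ℂ) (s : ι)
    (z : ℂ × ℂ) : ℂ := U₀ s + ∑' n, (uu q N y U₀ (n + 1) s z - uu q N y U₀ n s z)

private lemma ul_unif (hq : q ∈ ball p₀ r) (hN : ∀ s s', AnalyticOnNhd ℂ (N s s') (ball p₀ r))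
    (hy : ∀ s, AnalyticOnNhd ℂ (y s) (ball p₀ r)) (U₀ : ι → ℂ) {r' : ℝ} (hr : r' < r)
    (hqr : q ∈ closedBall p₀ r') (s : ι) :
    TendstoUniformlyOn (fun n => uu q N y U₀ n s) (UL q N y U₀ s) atTop (closedBall p₀ r') := by
  obtain ⟨a, ha, hb⟩ := inc_bd hq hN hy U₀ hr hqr
  have h := tendstoUniformlyOn_tsum_nat (f := fun n z => uu q N y U₀ (n + 1) s z -
    uu q N y U₀ n s z) ha (s := closedBall p₀ r') fun n z hz => hb n s z hz
  rw [Metric.tendstoUniformlyOn_iff] at h ⊢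
  intro ε hε
  filter_upwards [h ε hε] with n hn z hz
  have h1 := hn z hz
  have e : uu q N y U₀ n s z = U₀ s +
      ∑ k ∈ Finset.range n, (uu q N y U₀ (k + 1) s z - uu q N y U₀ k s z) := by
    rw [Finset.sum_range_sub (fun k => uu q N y U₀ k s z)]
    change _ = U₀ s + (uu q N y U₀ n s z - U₀ s)
    ring
  rw [e, UL, dist_add_left]
  exact h1

private lemma uu_bd (hq : q ∈ ball p₀ r) (hN : ∀ s s', AnalyticOnNhd ℂ (N s s') (ball p₀ r))
    (hy : ∀ s, AnalyticOnNhd ℂ (y s) (ball p₀ r)) (U₀ : ι → ℂ) {r' : ℝ} (hr : r' < r)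
    (hqr : q ∈ closedBall p₀ r') :
    ∃ B : ℝ, 0 ≤ B ∧ ∀ n s, ∀ z ∈ closedBall p₀ r', ‖uu q N y U₀ n s z‖ ≤ B := by
  obtain ⟨a, ha, hb⟩ := inc_bd hq hN hy U₀ hr hqr
  by_cases hne : Nonempty ι
  swap
  · exact ⟨0, le_rfl, fun n s => (hne ⟨s⟩).elim⟩
  have ha0 : ∀ n, 0 ≤ a n := fun n => (norm_nonneg _).trans (hb n hne.some q hqr)
  refine ⟨(∑ s, ‖U₀ s‖) + ∑' n, a n, add_nonneg (Finset.sum_nonneg fun _ _ => norm_nonneg _)
    (tsum_nonneg ha0), fun n s z hz => ?_⟩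
  have h1 : ‖uu q N y U₀ n s z‖ ≤ ‖U₀ s‖ + ∑ k ∈ Finset.range n, a k := by
    induction n with
    | zero =>
      rw [Finset.range_zero, Finset.sum_empty, add_zero]
      exact le_rfl
    | succ n ih =>
      rw [Finset.sum_range_succ]
      have h2 : uu q N y U₀ (n + 1) s z = uu q N y U₀ n s z +
          (uu q N y U₀ (n + 1) s z - uu q N y U₀ n s z) := by ring
      rw [h2]
      refine (norm_add_le _ _).trans ?_
      linarith [hb n s z hz]
  have h2 : ‖U₀ s‖ ≤ ∑ s, ‖U₀ s‖ :=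
    Finset.single_le_sum (f := fun s => ‖U₀ s‖) (fun _ _ => norm_nonneg _) (Finset.mem_univ s)
  have h3 : ∑ k ∈ Finset.range n, a k ≤ ∑' n, a n := ha.sum_le_tsum _ fun k _ => ha0 k
  linarith

private lemma exists_r' (hq : q ∈ ball p₀ r) {p : ℂ × ℂ} (hp : p ∈ ball p₀ r) :
    ∃ r' < r, q ∈ ball p₀ r' ∧ p ∈ ball p₀ r' := by
  obtain ⟨r', h1, h2⟩ := exists_between (max_lt (mem_ball.1 hq) (mem_ball.1 hp))
  exact ⟨r', h2, lt_of_le_of_lt (le_max_left _ _) h1, lt_of_le_of_lt (le_max_right _ _) h1⟩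

private lemma ul_an (hq : q ∈ ball p₀ r) (hN : ∀ s s', AnalyticOnNhd ℂ (N s s') (ball p₀ r))
    (hy : ∀ s, AnalyticOnNhd ℂ (y s) (ball p₀ r)) (U₀ : ι → ℂ) (s : ι) :
    AnalyticOnNhd ℂ (UL q N y U₀ s) (ball p₀ r) := by
  refine Pool.Agent.SCV.analyticOnNhd_of_tendstoLocallyUniformlyOn (l := atTop) _ isOpen_ball
    (fun n => uu q N y U₀ n s) _ (fun n => uu_an hq hN hy U₀ n s) ?_
  intro u hu p hp
  obtain ⟨r', h1, h2, h3⟩ := exists_r' hq hp
  exact ⟨closedBall p₀ r', mem_nhdsWithin_of_mem_nhds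
    (Filter.mem_of_superset (isOpen_ball.mem_nhds h3) ball_subset_closedBall),
    ul_unif hq hN hy U₀ h1 (ball_subset_closedBall h2) s u hu⟩

private lemma ul_tendsto (hq : q ∈ ball p₀ r) (hN : ∀ s s', AnalyticOnNhd ℂ (N s s') (ball p₀ r))
    (hy : ∀ s, AnalyticOnNhd ℂ (y s) (ball p₀ r)) (U₀ : ι → ℂ) (s : ι) {p : ℂ × ℂ}
    (hp : p ∈ ball p₀ r) :
    Tendsto (fun n => uu q N y U₀ n s p) atTop (𝓝 (UL q N y U₀ s p)) := by
  obtain ⟨r', h1, h2, h3⟩ := exists_r' hq hp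
  exact (ul_unif hq hN hy U₀ h1 (ball_subset_closedBall h2) s).tendsto_at
    (ball_subset_closedBall h3)

private lemma jr_lim {H : ℕ → ℂ × ℂ → ℂ} {H' : ℂ × ℂ → ℂ} (hq : q ∈ ball p₀ r)
    (hH : ∀ n, ContinuousOn (H n) (ball p₀ r)) {p : ℂ × ℂ} (hp : p ∈ ball p₀ r)
    (hbd : ∀ r' < r, q ∈ closedBall p₀ r' → ∃ B : ℝ, ∀ n, ∀ z ∈ closedBall p₀ r', ‖H n z‖ ≤ B)
    (hlim : ∀ z ∈ ball p₀ r, Tendsto (fun n => H n z) atTop (𝓝 (H' z))) :
    Tendsto (fun n => Jr q (H n) p) atTop (𝓝 (Jr q H' p)) := by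
  obtain ⟨r', h1, h2, h3⟩ := exists_r' hq hp
  obtain ⟨B, hB⟩ := hbd r' h1 (ball_subset_closedBall h2)
  have hI : uIoc (0:ℝ) 1 = Ioc 0 1 := uIoc_of_le zero_le_one
  refine intervalIntegral.tendsto_integral_filter_of_dominated_convergence (fun _ => B) ?_ ?_ ?_ ?_
  · refine Eventually.of_forall fun n => ?_
    rw [hI]
    exact ((jr_cont (hH n) hq hp).mono Ioc_subset_Icc_self).aestronglyMeasurable measurableSet_Ioc
  · refine Eventually.of_forall fun n => Eventually.of_forall fun t ht => ?_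
    rw [hI] at ht
    exact hB n _ (gm_mem (convex_closedBall p₀ r') (ball_subset_closedBall h2)
      (ball_subset_closedBall h3) (Ioc_subset_Icc_self ht))
  · exact intervalIntegrable_const
  · refine Eventually.of_forall fun t ht => ?_
    rw [hI] at ht
    exact hlim _ (gm_mem (convex_ball p₀ r) hq hp (Ioc_subset_Icc_self ht))

private lemma ul_eq (hq : q ∈ ball p₀ r) (hN : ∀ s s', AnalyticOnNhd ℂ (N s s') (ball p₀ r))
    (hy : ∀ s, AnalyticOnNhd ℂ (y s) (ball p₀ r)) (U₀ : ι → ℂ) (s : ι) {p : ℂ × ℂ}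
    (hp : p ∈ ball p₀ r) : UL q N y U₀ s p = U₀ s + Tl q N y (UL q N y U₀) s p := by
  have hbd : ∀ r' < r, q ∈ closedBall p₀ r' → ∃ B : ℝ, ∀ n s, ∀ z ∈ closedBall p₀ r',
      ‖∑ s', N s s' z * uu q N y U₀ n s' z‖ ≤ B := by
    intro r' hr' hqr
    obtain ⟨A, hA, hNA, -, -⟩ := exists_bd hN hy hr'
    obtain ⟨B, hB0, hB⟩ := uu_bd hq hN hy U₀ hr' hqr
    refine ⟨(Fintype.card ι) * (A * B), fun n s z hz => (norm_sum_le _ _).trans ?_⟩
    have h := Finset.sum_le_card_nsmul (Finset.univ : Finset ι)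
      (fun s' => ‖N s s' z * uu q N y U₀ n s' z‖) (A * B) (fun s' _ => by
        rw [norm_mul]
        exact mul_le_mul (hNA s s' z hz) (hB n s' z hz) (norm_nonneg _) hA)
    rw [nsmul_eq_mul, Finset.card_univ] at h
    exact h
  have hsl : ∀ z ∈ ball p₀ r, Tendsto (fun n => ∑ s', N s s' z * uu q N y U₀ n s' z) atTop
      (𝓝 (∑ s', N s s' z * UL q N y U₀ s' z)) := fun z hz =>
    tendsto_finsetSum _ fun s' _ => (ul_tendsto hq hN hy U₀ s' hz).const_mul _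
  have g1 : Tendsto (fun n => Jr q (H1 N y (uu q N y U₀ n) s) p) atTop
      (𝓝 (Jr q (H1 N y (UL q N y U₀) s) p)) := by
    refine jr_lim hq (fun n => (h1_an hN hy (uu_an hq hN hy U₀ n) s).continuousOn) hp ?_ ?_
    · intro r' hr' hqr
      obtain ⟨B, hB⟩ := hbd r' hr' hqr
      obtain ⟨A, hA, -, h1A, -⟩ := exists_bd hN hy hr'
      refine ⟨|B| * A, fun n z hz => ?_⟩
      unfold H1
      rw [norm_mul]
      exact mul_le_mul ((hB n s z hz).trans (le_abs_self B)) (h1A s z hz) (norm_nonneg _)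
        (abs_nonneg _)
    · intro z hz
      unfold H1
      exact (hsl z hz).mul_const _
  have g2 : Tendsto (fun n => Jr q (H2 N y (uu q N y U₀ n) s) p) atTop
      (𝓝 (Jr q (H2 N y (UL q N y U₀) s) p)) := by
    refine jr_lim hq (fun n => (h2_an hN hy (uu_an hq hN hy U₀ n) s).continuousOn) hp ?_ ?_
    · intro r' hr' hqr
      obtain ⟨B, hB⟩ := hbd r' hr' hqr
      obtain ⟨A, hA, -, -, h2A⟩ := exists_bd hN hy hr'
      refine ⟨|B| * A, fun n z hz => ?_⟩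
      unfold H2
      rw [norm_mul]
      exact mul_le_mul ((hB n s z hz).trans (le_abs_self B)) (h2A s z hz) (norm_nonneg _)
        (abs_nonneg _)
    · intro z hz
      unfold H2
      exact (hsl z hz).mul_const _
  have g3 : Tendsto (fun n => uu q N y U₀ (n + 1) s p) atTop
      (𝓝 (U₀ s + Tl q N y (UL q N y U₀) s p)) :=
    ((g1.const_mul _).add (g2.const_mul _)).const_add _
  exact tendsto_nhds_unique ((tendsto_add_atTop_iff_nat 1).2 (ul_tendsto hq hN hy U₀ s hp)) g3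

/-- differentiation of the radial integral -/
private lemma tl_deriv {h₁ h₂ : ℂ × ℂ → ℂ} (c₁ : ContinuousOn h₁ (ball p₀ r))
    (c₂ : ContinuousOn h₂ (ball p₀ r)) (hq : q ∈ ball p₀ r) {p : ℂ × ℂ} (hp : p ∈ ball p₀ r) :
    HasDerivAt (fun τ : ℝ => (gm q p τ - q).1 * Jr q h₁ (gm q p τ) +
      (gm q p τ - q).2 * Jr q h₂ (gm q p τ)) ((p - q).1 * h₁ p + (p - q).2 * h₂ p) 1 := by
  set f : ℝ → ℂ := fun t => (p - q).1 * h₁ (gm q p t) + (p - q).2 * h₂ (gm q p t) with hf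
  have hop : IsOpen {t : ℝ | gm q p t ∈ ball p₀ r} := isOpen_ball.preimage (gm_cont q p)
  have hfc : ContinuousOn f {t : ℝ | gm q p t ∈ ball p₀ r} := by
    refine ContinuousOn.add (ContinuousOn.mul continuousOn_const ?_)
      (ContinuousOn.mul continuousOn_const ?_)
    · exact c₁.comp (gm_cont q p).continuousOn fun t ht => ht
    · exact c₂.comp (gm_cont q p).continuousOn fun t ht => ht
  have h1 : (1:ℝ) ∈ {t : ℝ | gm q p t ∈ ball p₀ r} := by
    have : gm q p 1 = p := by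
      unfold gm
      simp
    rw [Set.mem_ofPred_eq, this]
    exact hp
  have hI : ∀ τ ∈ {t : ℝ | gm q p t ∈ ball p₀ r}, 0 ≤ τ → Icc 0 τ ⊆
      {t : ℝ | gm q p t ∈ ball p₀ r} := by
    intro τ hτ h0 t ht
    rcases h0.eq_or_lt with h0 | h0
    · have : t = 0 := le_antisymm (h0 ▸ ht.2) ht.1
      rw [this, Set.mem_ofPred_eq]
      have : gm q p 0 = q := by
        unfold gm
        simp
      rw [this]
      exact hq
    · have e : gm q p t = gm q (gm q p τ) (t / τ) := by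
        unfold gm
        have hτ0 : (τ : ℂ) ≠ 0 := by exact_mod_cast h0.ne'
        rw [add_sub_cancel_left, smul_smul]
        push_cast
        rw [div_mul_cancel₀ _ hτ0]
      rw [Set.mem_ofPred_eq, e]
      exact gm_mem (convex_ball p₀ r) hq hτ ⟨div_nonneg ht.1 h0.le, (div_le_one h0).2 ht.2⟩
  have hii : IntervalIntegrable f volume 0 1 := by
    rw [intervalIntegrable_iff_integrableOn_Icc_of_le zero_le_one]
    exact (hfc.mono (hI 1 h1 zero_le_one)).integrableOn_Icc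
  have hD : HasDerivAt (fun τ : ℝ => ∫ t in (0:ℝ)..τ, f t) (f 1) 1 := by
    refine intervalIntegral.integral_hasDerivAt_right hii ?_ ?_
    · exact hfc.stronglyMeasurableAtFilter hop _ h1
    · exact hfc.continuousAt (hop.mem_nhds h1)
  have hf1 : f 1 = (p - q).1 * h₁ p + (p - q).2 * h₂ p := by
    have : gm q p 1 = p := by
      unfold gm
      simp
    rw [hf]
    simp only [this]
  rw [← hf1]
  refine hD.congr_of_eventuallyEq ?_
  filter_upwards [hop.mem_nhds h1, lt_mem_nhds (zero_lt_one : (0:ℝ) < 1)] with τ hτ hτ0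
  have e1 : gm q p τ - q = (τ : ℂ) • (p - q) := by
    unfold gm
    rw [add_sub_cancel_left]
  have e2 : ∀ t : ℝ, gm q (gm q p τ) t = gm q p (t * τ) := by
    intro t
    unfold gm
    rw [add_sub_cancel_left, smul_smul]
    push_cast
    rfl
  have e3 : ∀ h : ℂ × ℂ → ℂ, (τ : ℂ) * Jr q h (gm q p τ) = ∫ t in (0:ℝ)..τ, h (gm q p t) := by
    intro h
    unfold Jr
    simp only [e2]
    have := intervalIntegral.smul_integral_comp_mul_right (a := 0) (b := 1)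
      (fun t : ℝ => h (gm q p t)) τ
    rw [zero_mul, one_mul] at this
    rw [← this, Complex.real_smul]
  have hiτ : ∀ h : ℂ × ℂ → ℂ, ContinuousOn h (ball p₀ r) →
      IntervalIntegrable (fun t : ℝ => h (gm q p t)) volume 0 τ := by
    intro h hc
    rw [intervalIntegrable_iff_integrableOn_Icc_of_le hτ0.le]
    exact (hc.comp (gm_cont q p).continuousOn (hI τ hτ hτ0.le)).integrableOn_Icc
  show _ = ∫ t in (0:ℝ)..τ, f t
  rw [hf, intervalIntegral.integral_add ((hiτ h₁ c₁).const_mul _) ((hiτ h₂ c₂).const_mul _),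
    intervalIntegral.integral_const_mul, intervalIntegral.integral_const_mul, ← e3, ← e3, e1]
  simp only [Prod.smul_fst, Prod.smul_snd, smul_eq_mul]
  ring

end RadO

theorem rad_ode {ι : Type} [Fintype ι] {p₀ q : ℂ × ℂ} {r : ℝ} (hq : q ∈ ball p₀ r)
    {N : ι → ι → ℂ × ℂ → ℂ} {y : ι → ℂ × ℂ → ℂ} (hN : ∀ s s', AnalyticOnNhd ℂ (N s s') (ball p₀ r))
    (hy : ∀ s, AnalyticOnNhd ℂ (y s) (ball p₀ r)) (U₀ : ι → ℂ) :
    ∃ U : ι → ℂ × ℂ → ℂ, (∀ s, AnalyticOnNhd ℂ (U s) (ball p₀ r)) ∧ (∀ s, U s q = U₀ s) ∧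
      ∀ s, ∀ p ∈ ball p₀ r, fderiv ℂ (U s) p (p - q) =
        (∑ s', N s s' p * U s' p) * fderiv ℂ (y s) p (p - q) := by
  refine ⟨UL q N y U₀, ul_an hq hN hy U₀, fun s => ?_, fun s p hp => ?_⟩
  · rw [ul_eq hq hN hy U₀ s hq, Tl]
    simp
  · have hgp : gm q p 1 = p := by
      unfold gm
      simp
    have h1 := tl_deriv (h1_an hN hy (ul_an hq hN hy U₀) s).continuousOn
      (h2_an hN hy (ul_an hq hN hy U₀) s).continuousOn hq hp
    have h2 : HasDerivAt (fun τ : ℝ => UL q N y U₀ s (gm q p τ))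
        ((p - q).1 * H1 N y (UL q N y U₀) s p + (p - q).2 * H2 N y (UL q N y U₀) s p) 1 := by
      refine (h1.const_add (U₀ s)).congr_of_eventuallyEq ?_
      have hop : IsOpen {t : ℝ | gm q p t ∈ ball p₀ r} := isOpen_ball.preimage (gm_cont q p)
      filter_upwards [hop.mem_nhds (show gm q p 1 ∈ ball p₀ r by rw [hgp]; exact hp)] with τ hτ
      rw [ul_eq hq hN hy U₀ s hτ]
      rfl
    have h3 : HasFDerivAt (UL q N y U₀ s) (fderiv ℂ (UL q N y U₀ s) p) (gm q p 1) := by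
      rw [hgp]
      exact (ul_an hq hN hy U₀ s p hp).differentiableAt.hasFDerivAt
    have h4 : HasDerivAt (fun τ : ℝ => gm q p τ) (p - q) 1 := by
      unfold gm
      have h5 : HasDerivAt (fun τ : ℝ => (τ : ℂ)) 1 1 := Complex.ofRealCLM.hasDerivAt
      have h6 := (h5.smul_const (p - q)).const_add q
      rwa [one_smul] at h6
    have h5 := (h3.restrictScalars ℝ).comp_hasDerivAt (1:ℝ) h4
    have h6 := h5.unique h2
    have h7 : fderiv ℂ (UL q N y U₀ s) p (p - q) =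
      (p - q).1 * H1 N y (UL q N y U₀) s p + (p - q).2 * H2 N y (UL q N y U₀) s p := h6
    rw [h7, fderiv_eq (y s) p (p - q), H1, H2]
    ring

end Pool.Agent.MP_ae5b4e_an_NB1D
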